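import Pool.Agent.Lib.MP_adc574_ag_G2.Key
import Pool.Agent.Lib.MP_adc574_ag.Piece
import Pool.Agent.Lib.MP_adc574_ag_Q.PieceD

/-!
# The base case: at most six points whose differences are eighth powers
-/

set_option autoImplicit false

namespace MPadc574G

open Polynomial MPadc574 MPadc574Q

noncomputable section

variable {p : ℕ} [Fact p.Prime] {κ : Type*} [Field κ] [CharP κ p]

/-- If `-1` is an eighth power in `ZMod p`, `p` odd, then `p ≡ 1 (mod 16)`. -/
theorem mod_sixteen (hp2 : p ≠ 2) {x : ZMod p} (hx : x ^ 8 = -1) : p % 16 = 1 := by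
  have hp := (Fact.out : p.Prime)
  have h2 : (-1 : ZMod p) ≠ 1 := by
    intro h
    have h3 : ((2 : ℕ) : ZMod p) = 0 := by
      push_cast
      linear_combination -h
    rw [CharP.cast_eq_zero_iff (ZMod p) p] at h3
    exact hp2 ((Nat.prime_dvd_prime_iff_eq hp Nat.prime_two).1 h3)
  have hx0 : x ≠ 0 := by
    rintro rfl
    norm_num at hx
  have hord : orderOf x = 2 ^ (3 + 1) := by
    apply orderOf_eq_prime_pow
    · norm_num
      rw [hx]
      exact h2
    · norm_num
      have : x ^ 16 = (x ^ 8) ^ 2 := by ring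
      rw [this, hx]
      norm_num
  have hdvd : orderOf x ∣ p - 1 := orderOf_dvd_of_pow_eq_one (ZMod.pow_card_sub_one_eq_one hx0)
  rw [hord] at hdvd
  have := hp.one_lt
  obtain ⟨k, hk⟩ := hdvd
  omega

theorem base6 {e : ℕ} (he : 2 * e + 1 = p) (he0 : 0 < e) : BasePieceD p 2 e 6 8 κ := by
  classical
  have hpp := (Fact.out : p.Prime)
  have hp : 0 < p := hpp.pos
  have hp2 : p ≠ 2 := by omega
  have hodd : Odd p := hpp.odd_of_ne_two hp2
  have hep : e = (p - 1) / 2 := by omega
  intro s W q hcard hs hsD hW hq hdeg hcop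
  set φ : ZMod p →+* κ := ZMod.castHom dvd_rfl κ with hφ
  have hφinj : Function.Injective φ := φ.injective
  have hz : ∀ c ∈ s, ∃ z : ZMod p, φ z = c := by
    intro c hc
    obtain ⟨n, rfl⟩ := hs c hc
    exact ⟨(n : ZMod p), map_natCast _ n⟩
  have hW1 : ∀ c ∈ s, W c = 1 := by
    intro c hc
    have := hW c hc
    omega
  have hsum : ∑ c ∈ s, W c = s.card := by
    rw [Finset.sum_congr rfl hW1]
    simp
  rw [hsum] at hdeg
  have hwp : wpoly e s id W = (fp s) ^ ((p - 1) / 2) := by
    unfold wpoly fp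
    rw [← Finset.prod_pow]
    apply Finset.prod_congr rfl
    intro c hc
    rw [hW1 c hc, one_mul, hep, id]
  rw [hwp] at hcop
  -- lift of `s` to the prime field
  set S : Finset (ZMod p) := s.preimage φ hφinj.injOn with hS
  have hSs : S.image φ = s := by
    ext c
    rw [Finset.mem_image]
    constructor
    · rintro ⟨z, hz', rfl⟩
      exact Finset.mem_preimage.1 hz'
    · intro hc
      obtain ⟨z, rfl⟩ := hz c hc
      exact ⟨z, Finset.mem_preimage.2 hc, rfl⟩
  have hScard : S.card = s.card := by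
    rw [← hSs, Finset.card_image_of_injective _ hφinj]
  have hSD : ∀ c ∈ S, ∀ d ∈ S, ∃ x : ZMod p, c - d = x ^ 8 := by
    intro c hc d hd
    obtain ⟨n, hn⟩ := hsD _ (Finset.mem_preimage.1 hc) _ (Finset.mem_preimage.1 hd)
    refine ⟨(n : ZMod p), hφinj ?_⟩
    rw [map_sub, hn, map_pow, map_natCast]
  have hsq : ∀ c ∈ S, ∀ d ∈ S, IsSquare (c - d) := by
    intro c hc d hd
    obtain ⟨x, hx⟩ := hSD c hc d hd
    exact ⟨x ^ 4, by rw [hx]; ring⟩
  have h2 : 2 ≤ s.card := by omega
  have hp16 : p % 16 = 1 := by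
    obtain ⟨c, hc, d, hd, hcd⟩ := Finset.one_lt_card.1 (by omega : 1 < S.card)
    obtain ⟨x, hx⟩ := hSD c hc d hd
    obtain ⟨y, hy⟩ := hSD d hd c hc
    have hx0 : x ≠ 0 := by
      rintro rfl
      apply hcd
      have : c - d = 0 := by rw [hx]; norm_num
      exact sub_eq_zero.1 this
    apply mod_sixteen hp2 (x := y / x)
    rw [div_pow, ← hx, ← hy]
    rw [div_eq_iff (sub_ne_zero.2 hcd)]
    ring
  have hp4 : p % 4 = 1 := by omega
  -- small sets
  by_cases hsmall : s.card ≤ 4
  · have hval : mpoly s.val = fp s := rfl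
    rw [← hval] at hcop
    refine piece hp4 s.card s.val rfl ?_ ?_ q hq ?_ hdeg hcop
    · intro c hc
      exact hz c hc
    · intro t ht
      exact (Finset.card_le_card (fun c hc => ht c hc)).trans hsmall
    · intro c
      have := Multiset.nodup_iff_count_le_one.1 s.nodup c
      omega
  -- the cases of five and six points
  have hqdeg : q.natDegree < 2 := by
    by_contra hcon
    have hq2 : q.natDegree = 2 := by omega
    have hs6 : s.card = 6 := by omega
    rw [cop_eq_zero_iff hp] at hcop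
    have h3 := hcop 2
    have hm : ((fp s) ^ ((p - 1) / 2)).Monic := (fp_monic _).pow _
    have hd : ((fp s) ^ ((p - 1) / 2)).natDegree = 3 * (p - 1) := by
      rw [natDegree_pow, natDegree_fp, hs6]
      omega
    have h4 : p * (2 + 1) - 1 = ((fp s) ^ ((p - 1) / 2)).natDegree + q.natDegree := by
      rw [hd, hq2]
      omega
    rw [h4, coeff_mul_degree_add_degree, hm.leadingCoeff, one_mul, leadingCoeff_eq_zero] at h3
    exact hq h3
  have hdetS : (cmMatrix p 2 (fp S)).det ≠ 0 := by
    have h56 : S.card = 5 ∨ S.card = 6 := by omega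
    rcases h56 with h | h
    · exact det_five hp16 S h hsq
    · exact det_six hp16 S h hsq
  have hdet : (cmMatrix p 2 (fp s)).det ≠ 0 := by
    rw [← hSs, ← map_fp φ S, det_cmMatrix_map]
    intro h
    exact hdetS (hφinj (by rw [h, map_zero]))
  apply hq
  refine eq_zero_of_cop_of_det_ne_zero hp (by omega) (fp s) hdet ?_ hcop
  exact (degree_le_natDegree).trans_lt (by exact_mod_cast hqdeg)

end

end MPadc574G
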