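import Mathlib

/-!
# Character sums of products of linear factors over finite fields: definitions and basic API
-/

set_option autoImplicit false

namespace MPadc574G

open Polynomial Finset

noncomputable section

/-- The sum of the quadratic character over the values of a polynomial. -/
def cs (F : Type*) [Field F] [Fintype F] [DecidableEq F] (f : F[X]) : ℤ :=
  ∑ x : F, quadraticChar F (f.eval x)

/-- The polynomial with simple roots at the points of `S`. -/
def fp {F : Type*} [CommRing F] (S : Finset F) : F[X] := ∏ c ∈ S, (X - C c)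

section fp

variable {F : Type*} [Field F]

theorem fp_monic (S : Finset F) : (fp S).Monic := monic_prod_of_monic _ _ (fun c _ => monic_X_sub_C c)

theorem natDegree_fp (S : Finset F) : (fp S).natDegree = S.card := by
  unfold fp
  rw [natDegree_prod_of_monic _ _ (fun c _ => monic_X_sub_C c)]
  simp

theorem eval_fp (S : Finset F) (x : F) : (fp S).eval x = ∏ c ∈ S, (x - c) := by
  unfold fp
  rw [eval_prod]
  simp

theorem fp_insert [DecidableEq F] {S : Finset F} {d : F} (hd : d ∉ S) :
    fp (insert d S) = (X - C d) * fp S := by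
  unfold fp
  rw [Finset.prod_insert hd]

theorem map_fp {K : Type*} [Field K] [DecidableEq F] (φ : K →+* F) (S : Finset K) :
    (fp S).map φ = fp (S.image φ) := by
  unfold fp
  rw [Polynomial.map_prod, Finset.prod_image (fun a _ b _ h => φ.injective h)]
  simp

end fp

section mon

variable (K : Type*) [Field K] [Fintype K]

open Classical in
/-- The monic polynomials of degree `n`. -/
def mon (n : ℕ) : Finset K[X] :=
  (univ : Finset (Fin n → K)).image (fun c => X ^ n + ∑ i : Fin n, C (c i) * X ^ (i : ℕ))

variable {K}

theorem mem_mon {n : ℕ} {g : K[X]} : g ∈ mon K n ↔ g.Monic ∧ g.natDegree = n := by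
  classical
  unfold mon
  rw [Finset.mem_image]
  constructor
  · rintro ⟨c, -, rfl⟩
    have hlt : (∑ i : Fin n, C (c i) * X ^ (i : ℕ) : K[X]).degree < n := degree_sum_fin_lt c
    refine ⟨monic_X_pow_add hlt, ?_⟩
    apply natDegree_eq_of_degree_eq_some
    rw [degree_add_eq_left_of_degree_lt (by rwa [degree_X_pow]), degree_X_pow]
  · rintro ⟨hg, hn⟩
    refine ⟨fun i => g.coeff i, Finset.mem_univ _, ?_⟩
    conv_rhs => rw [hg.as_sum, hn]
    congr 1
    rw [Finset.sum_range]

/-- The monic irreducible polynomials of degree `n`. -/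
def irr (K : Type*) [Field K] [Fintype K] (n : ℕ) : Finset K[X] := by
  classical
  exact (mon K n).filter Irreducible

theorem mem_irr {n : ℕ} {g : K[X]} : g ∈ irr K n ↔ g.Monic ∧ g.natDegree = n ∧ Irreducible g := by
  classical
  unfold irr
  rw [Finset.mem_filter, mem_mon, and_assoc]

variable [DecidableEq K]

/-- The multiplicative function `g ↦ ∏_{c ∈ S} χ(g(c))`. -/
def ch (S : Finset K) (g : K[X]) : ℤ := ∏ c ∈ S, quadraticChar K (g.eval c)

theorem ch_mul (S : Finset K) (g h : K[X]) : ch S (g * h) = ch S g * ch S h := by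
  unfold ch
  rw [← Finset.prod_mul_distrib]
  apply Finset.prod_congr rfl
  intro c _
  rw [eval_mul, map_mul]

theorem ch_one (S : Finset K) : ch S (1 : K[X]) = 1 := by
  unfold ch
  simp

theorem ch_pow (S : Finset K) (g : K[X]) (n : ℕ) : ch S (g ^ n) = ch S g ^ n := by
  induction n with
  | zero => simp [ch_one]
  | succ n ih => rw [pow_succ, ch_mul, ih, pow_succ]

/-- The coefficients of the `L`-polynomial. -/
def As (S : Finset K) (n : ℕ) : ℤ := ∑ g ∈ mon K n, ch S g

/-- The power sums, in terms of irreducible polynomials. -/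
def Lam (S : Finset K) (j : ℕ) : ℤ :=
  ∑ d ∈ j.divisors, ∑ P ∈ irr K d, (d : ℤ) * ch S P ^ (j / d)

end mon

end

end MPadc574G
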