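import Pool.Agent.Lib.MP_adc574_ag_G2.Basic

/-!
# JOB BomC: Bombieri's auxiliary function vanishes at the rational points

`Q = 2 r + 1 = p ^ k`, the field has `Q ^ 2` elements. With `φ = iterateFrobenius F p k` (so `φ x = x ^ Q`
and `φ (φ x) = x`), put `a i = (α i).map φ` and so on. Then `(a i)(x) ^ Q = (α i)(x ^ Q)` because
`(a i)(x) ^ Q = φ (a i (x)) = ((a i).map φ) (φ x) = (α i)(x ^ Q)`, and `(expand F Q (α i))(x) = (α i)(x ^ Q)`,
`(x ^ (Q i)) ^ Q = x ^ i`. If `y ^ 2 = f(x)` then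
`(A(x) + B(x) y) ^ Q = ∑ x ^ i α i (x ^ Q) + y ^ (Q (Q + 1)) ∑ x ^ i β' i (x ^ Q) + y ^ Q ∑ x ^ i β i (x ^ Q) +
y ^ Q y ^ (Q (Q - 1)) ∑ x ^ i α' i (x ^ Q)`, where `y ^ (Q (Q + 1)) = y ^ (Q + 1) = f(x) ^ (r + 1)` and
`y ^ Q y ^ (Q (Q - 1)) = y ^ (Q ^ 2) = y`, `y ^ Q = y f(x) ^ r`. So it is the value at `x` of the first relation
plus `y` times the value at `x` of the second relation, that is, `0`.
-/

set_option autoImplicit false

namespace MPadc574G

open Polynomial Finset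

theorem bomC {F : Type*} [Field F] [Fintype F] {p k r : ℕ} [Fact p.Prime] [CharP F p]
    (hQ : p ^ k = 2 * r + 1) (hF : Fintype.card F = (p ^ k) ^ 2) (f : F[X])
    (α β : Fin (r + 3) → F[X]) (α' β' : Fin (r + 1) → F[X])
    (h1 : (∑ i : Fin (r + 3), X ^ (i : ℕ) * expand F (2 * r + 1) (α i)) +
        f ^ (r + 1) * ∑ i : Fin (r + 1), X ^ (i : ℕ) * expand F (2 * r + 1) (β' i) = 0)
    (h2 : f ^ r * (∑ i : Fin (r + 3), X ^ (i : ℕ) * expand F (2 * r + 1) (β i)) +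
        ∑ i : Fin (r + 1), X ^ (i : ℕ) * expand F (2 * r + 1) (α' i) = 0)
    (A B : F[X])
    (hA : A = (∑ i : Fin (r + 3), X ^ ((2 * r + 1) * (i : ℕ)) * (α i).map (iterateFrobenius F p k)) +
      f ^ (r + 1) * ∑ i : Fin (r + 1), X ^ ((2 * r + 1) * (i : ℕ)) * (β' i).map (iterateFrobenius F p k))
    (hB : B = (∑ i : Fin (r + 3), X ^ ((2 * r + 1) * (i : ℕ)) * (β i).map (iterateFrobenius F p k)) +
      f ^ r * ∑ i : Fin (r + 1), X ^ ((2 * r + 1) * (i : ℕ)) * (α' i).map (iterateFrobenius F p k))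
    (x y : F) (hxy : y ^ 2 = f.eval x) : A.eval x + B.eval x * y = 0 := by
  set φ := iterateFrobenius F p k with hφ
  have hφx : ∀ z : F, φ z = z ^ (2 * r + 1) := by
    intro z
    rw [hφ, iterateFrobenius_def, hQ]
  have hφφ : ∀ z : F, φ (φ z) = z := by
    intro z
    rw [hφx, hφx, ← pow_mul, ← pow_two, ← hQ, ← hF]
    exact FiniteField.pow_card z
  have hcomp : φ.comp φ = RingHom.id F := RingHom.ext hφφ
  have hev : ∀ g : F[X], φ ((g.map φ).eval x) = g.eval (x ^ (2 * r + 1)) := by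
    intro g
    rw [← Polynomial.eval_map_apply, Polynomial.map_map, hcomp, Polynomial.map_id, hφx]
  have hxp : ∀ i : ℕ, φ (x ^ ((2 * r + 1) * i)) = x ^ i := by
    intro i
    rw [pow_mul, map_pow, ← hφx, hφφ]
  have e1 := congrArg (Polynomial.eval x) h1
  have e2 := congrArg (Polynomial.eval x) h2
  simp only [eval_add, eval_mul, eval_pow, eval_finsetSum, eval_X, expand_eval, eval_zero] at e1 e2
  apply φ.injective
  rw [map_zero, map_add, map_mul, hA, hB]
  simp only [eval_add, eval_mul, eval_pow, eval_finsetSum, eval_X, map_add, map_mul, map_sum, hev,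
    hxp]
  have hy : φ y = y * (f.eval x) ^ r := by
    rw [hφx, ← hxy, ← pow_mul]
    ring
  have hfr : φ ((f.eval x) ^ r) * φ y = y := by
    have : (f.eval x) ^ r * y = φ y := by rw [hy]; ring
    rw [← map_mul, this, hφφ]
  have hfr1 : φ ((f.eval x) ^ (r + 1)) = (f.eval x) ^ (r + 1) := by
    have h3 : (f.eval x) ^ (r + 1) = y * φ y := by
      rw [hy, ← hxy]
      ring
    rw [h3, map_mul, hφφ]
    ring
  rw [hfr1]
  linear_combination e1 + y * e2 + (∑ i : Fin (r + 1), x ^ (i : ℕ) * (α' i).eval (x ^ (2 * r + 1))) * hfr +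
    (∑ i : Fin (r + 3), x ^ (i : ℕ) * (β i).eval (x ^ (2 * r + 1))) * hy

end MPadc574G
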