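import Pool.Agent.Lib.MP_adc574_ag_G2.Basic

/-!
# JOB BomD: counting zeros with multiplicity

`N = A ^ 2 - f B ^ 2 ≠ 0`. For every `x` the number `1 + χ(f(x))` of square roots of `f(x)`
(`quadraticChar_card_sqrts`) is at most the root multiplicity of `N` at `x`: if `f(x) = 0` then `A(x) = 0`, so
`N(x) = 0`; if `f(x) = y ^ 2 ≠ 0` then `A(x) + B(x) y = A(x) - B(x) y = 0`, so `A(x) = B(x) = 0` and
`(X - x) ^ 2` divides `N`. Sum over `x` (`Polynomial.card_roots'`, `Polynomial.count_roots`).
-/

set_option autoImplicit false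

namespace MPadc574G

open Polynomial Finset

theorem bomD {F : Type*} [Field F] [Fintype F] [DecidableEq F] (hF2 : ringChar F ≠ 2)
    (f A B : F[X]) (hN : A ^ 2 - f * B ^ 2 ≠ 0)
    (h : ∀ x y : F, y ^ 2 = f.eval x → A.eval x + B.eval x * y = 0) :
    (Fintype.card F : ℤ) + cs F f ≤ ((A ^ 2 - f * B ^ 2).natDegree : ℤ) := by
  classical
  set N := A ^ 2 - f * B ^ 2 with hNdef
  have h2 : (2 : F) ≠ 0 := Ring.two_ne_zero hF2
  have key : ∀ x : F, 1 + quadraticChar F (f.eval x) ≤ (N.rootMultiplicity x : ℤ) := by
    intro x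
    by_cases hf0 : f.eval x = 0
    · rw [hf0, quadraticChar_zero, add_zero]
      have h1 := h x 0 (by rw [hf0]; norm_num)
      rw [mul_zero, add_zero] at h1
      have h3 : N.IsRoot x := by
        rw [IsRoot.def, hNdef, eval_sub, eval_pow, eval_mul, h1, hf0]
        ring
      have := (rootMultiplicity_pos hN).2 h3
      exact_mod_cast this
    · rcases quadraticChar_dichotomy hf0 with h1 | h1
      · rw [h1]
        obtain ⟨y, hy⟩ := (quadraticChar_one_iff_isSquare hf0).1 h1
        have e1 := h x y (by rw [hy]; ring)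
        have e2 := h x (-y) (by rw [hy]; ring)
        have hy0 : y ≠ 0 := by
          rintro rfl
          apply hf0
          rw [hy]
          ring
        have hB : B.eval x = 0 := by
          have : B.eval x * (2 * y) = 0 := by linear_combination e1 - e2
          rcases mul_eq_zero.1 this with h3 | h3
          · exact h3
          · exact absurd h3 (mul_ne_zero h2 hy0)
        have hA : A.eval x = 0 := by
          rw [hB, zero_mul, add_zero] at e1
          exact e1
        obtain ⟨A', hA'⟩ := dvd_iff_isRoot.2 hA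
        obtain ⟨B', hB'⟩ := dvd_iff_isRoot.2 hB
        have h3 : (X - C x) ^ 2 ∣ N := ⟨A' ^ 2 - f * B' ^ 2, by
          rw [hNdef, hA', hB']
          ring⟩
        have h4 := (le_rootMultiplicity_iff hN).2 h3
        have : (2 : ℤ) ≤ N.rootMultiplicity x := by exact_mod_cast h4
        linarith
      · rw [h1]
        simp
  have h1 : (Fintype.card F : ℤ) + cs F f = ∑ x : F, (1 + quadraticChar F (f.eval x)) := by
    rw [Finset.sum_add_distrib]
    unfold cs
    simp
  rw [h1]
  calc ∑ x : F, (1 + quadraticChar F (f.eval x)) ≤ ∑ x : F, (N.rootMultiplicity x : ℤ) :=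
        Finset.sum_le_sum (fun x _ => key x)
    _ = ((∑ x : F, N.rootMultiplicity x : ℕ) : ℤ) := by push_cast; rfl
    _ ≤ (N.natDegree : ℤ) := by
        have h5 : ∑ x : F, N.rootMultiplicity x = N.roots.card := by
          simp_rw [← count_roots]
          exact Multiset.sum_count_eq_card (fun a _ => Finset.mem_univ a)
        rw [h5]
        exact_mod_cast card_roots' N

end MPadc574G
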