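import Pool.Agent.Lib.MP_adc574_ag_G2.BomA
import Pool.Agent.Lib.MP_adc574_ag_G2.BomB
import Pool.Agent.Lib.MP_adc574_ag_G2.BomC
import Pool.Agent.Lib.MP_adc574_ag_G2.BomD

/-!
# The bound for character sums of quintic polynomials over fields with `q ^ 2` elements (Bombieri)
-/

set_option autoImplicit false

namespace MPadc574G

open Polynomial Finset

theorem bombieri_aux {F : Type*} [Field F] [Fintype F] [DecidableEq F] {p k : ℕ} [Fact p.Prime]
    [CharP F p] (hp2 : p ≠ 2) (hF : Fintype.card F = (p ^ k) ^ 2) (hk : 11 ≤ p ^ k) (f : F[X])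
    (hf : f.natDegree = 5) : cs F f ≤ 5 * (p ^ k : ℕ) := by
  have hodd : Odd (p ^ k) := ((Fact.out : p.Prime).odd_of_ne_two hp2).pow
  obtain ⟨r, hr⟩ := hodd
  have hr5 : 5 ≤ r := by omega
  obtain ⟨α, β, α', β', hα, hβ, hα', hβ', hne, h1, h2⟩ := bomA hr5 f hf
  have hchar : ringChar F ≠ 2 := by
    rw [ringChar.eq F p]
    exact hp2
  set φ := iterateFrobenius F p k with hφ
  set A : F[X] := (∑ i : Fin (r + 3), X ^ ((2 * r + 1) * (i : ℕ)) * (α i).map φ) +
      f ^ (r + 1) * ∑ i : Fin (r + 1), X ^ ((2 * r + 1) * (i : ℕ)) * (β' i).map φ with hA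
  set B : F[X] := (∑ i : Fin (r + 3), X ^ ((2 * r + 1) * (i : ℕ)) * (β i).map φ) +
      f ^ r * ∑ i : Fin (r + 1), X ^ ((2 * r + 1) * (i : ℕ)) * (α' i).map φ with hB
  have hmap : ∀ g : F[X], g.map φ ≠ 0 ↔ g ≠ 0 := fun g => Polynomial.map_ne_zero_iff φ.injective
  obtain ⟨hN, hdeg⟩ := bomB hr5 f hf (fun i => (α i).map φ) (fun i => (β i).map φ)
    (fun i => (α' i).map φ) (fun i => (β' i).map φ)
    (fun i => (degree_map_le).trans_lt (hα i)) (fun i => (degree_map_le).trans_lt (hβ i))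
    (fun i => (degree_map_le).trans_lt (hα' i)) (fun i => (degree_map_le).trans_lt (hβ' i))
    (by simpa only [hmap] using hne) A B hA hB
  have h := bomD hchar f A B hN (fun x y hxy => bomC hr hF f α β α' β' h1 h2 A B hA hB x y hxy)
  rw [hF, hr] at h
  rw [hr]
  have h3 : ((A ^ 2 - f * B ^ 2).natDegree : ℤ) + 1 ≤ (2 * r + 1) ^ 2 + 5 * (2 * r + 1) := by
    exact_mod_cast hdeg
  push_cast at h ⊢
  linarith

theorem cs_C_mul {F : Type*} [Field F] [Fintype F] [DecidableEq F] (c : F) (f : F[X]) :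
    cs F (C c * f) = quadraticChar F c * cs F f := by
  unfold cs
  rw [Finset.mul_sum]
  apply Finset.sum_congr rfl
  intro x _
  rw [eval_mul, eval_C, map_mul]

theorem bombieri {F : Type*} [Field F] [Fintype F] [DecidableEq F] {p k : ℕ} [Fact p.Prime]
    [CharP F p] (hp2 : p ≠ 2) (hF : Fintype.card F = (p ^ k) ^ 2) (hk : 11 ≤ p ^ k) (f : F[X])
    (hf : f.natDegree = 5) : |cs F f| ≤ 5 * (p ^ k : ℕ) := by
  have hchar : ringChar F ≠ 2 := by
    rw [ringChar.eq F p]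
    exact hp2
  rw [abs_le']
  refine ⟨bombieri_aux hp2 hF hk f hf, ?_⟩
  obtain ⟨δ, hδ⟩ := quadraticChar_exists_neg_one hchar
  have hδ0 : δ ≠ 0 := by
    rintro rfl
    simp at hδ
  have h1 := bombieri_aux hp2 hF hk (C δ * f) (by rw [natDegree_C_mul hδ0, hf])
  rw [cs_C_mul, hδ] at h1
  linarith

end MPadc574G
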