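import Pool.Agent.Lib.MP_adc574_ag_G2.Basic

/-!
# JOB CongA: character sums of quadratic and cubic polynomials

`sum_two`: for `x ≠ b`, `χ((x - a)(x - b)) = χ((x - a)/(x - b)) = χ(1 + (b - a)/(x - b))`, and `1 + (b - a)/(x - b)` takes
every value except `1` once, so the sum is `0 - 1`.

`sum_three_mod`: `S = {a, b, c}`. Expand
`∑_x (1 + χ(x - a)) (1 + χ(x - b)) (1 + χ(x - c)) = q + 3 * 0 + 3 * (-1) + T₃`, and the left side is
`8 N + 3 * 4`, where `N` is the number of `x` such that `x - a, x - b, x - c` are nonzero squares (the terms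
`x = a, b, c` are `4` as all differences are nonzero squares). `N` is even:
`x ↦ a + (a - b) (a - c) / (x - a)` is an involution of this set
(`σ(x) - b = (a - b) (x - c) / (x - a)`, `σ(x) - c = (a - c) (x - b) / (x - a)`), its fixed points are
`x = a ± u v`, where `u ^ 2 = a - b`, `v ^ 2 = a - c`, and both are in the set or none of them:
`(x₊ - b) (x₋ - b) = u (u + v) u (u - v) = u ^ 2 (c - b)`, `(x₊ - c) (x₋ - c) = v ^ 2 (b - c)`,
`(x₊ - a) (x₋ - a) = - u ^ 2 v ^ 2` and `-1` is a square.
(`MPadc574Q.even_of_invol` in `Pool/Agent/Lib/MP_adc574_ag_Q/Count.lean` may be imported or copied.)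
-/

set_option autoImplicit false

namespace MPadc574G

open Polynomial Finset

variable {F : Type*} [Field F] [Fintype F] [DecidableEq F]

theorem cs_one : cs F (1 : F[X]) = Fintype.card F := by
  unfold cs
  simp

theorem sum_one (hF : ringChar F ≠ 2) (a : F) : cs F (X - C a) = 0 := by
  unfold cs
  simp only [eval_sub, eval_X, eval_C]
  rw [← quadraticChar_sum_zero hF]
  exact (Equiv.subRight a).sum_comp (fun x => quadraticChar F x)

private theorem congA_sum_affine (hF : ringChar F ≠ 2) (d : F) (hd : d ≠ 0) :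
    ∑ u : F, quadraticChar F (1 + d * u) = 0 := by
  rw [← quadraticChar_sum_zero hF]
  exact ((Equiv.mulLeft₀ d hd).trans (Equiv.addLeft (1 : F))).sum_comp
    (fun x => quadraticChar F x)

theorem sum_two (hF : ringChar F ≠ 2) {a b : F} (hab : a ≠ b) :
    cs F ((X - C a) * (X - C b)) = -1 := by
  unfold cs
  simp only [eval_mul, eval_sub, eval_X, eval_C]
  have hd : b - a ≠ 0 := sub_ne_zero.2 hab.symm
  have h1 : ∑ x : F, quadraticChar F ((x - a) * (x - b)) =
      ∑ t : F, quadraticChar F ((t⁻¹ + (b - a)) * t⁻¹) := by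
    have e := ((Equiv.inv F).trans (Equiv.addRight b)).sum_comp
      (fun x => quadraticChar F ((x - a) * (x - b)))
    rw [← e]
    apply Finset.sum_congr rfl
    intro t _
    congr 1
    show (t⁻¹ + b - a) * (t⁻¹ + b - b) = _
    ring
  rw [h1]
  have h2 : ∀ t : F, quadraticChar F ((t⁻¹ + (b - a)) * t⁻¹) =
      quadraticChar F (1 + (b - a) * t) - (if t = 0 then 1 else 0) := by
    intro t
    by_cases ht : t = 0
    · subst ht; simp
    · have e : (t⁻¹ + (b - a)) * t⁻¹ = (1 + (b - a) * t) * (t⁻¹) ^ 2 := by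
        field_simp
      rw [e, map_mul, quadraticChar_sq_one' (inv_ne_zero ht), if_neg ht]
      ring
  rw [Finset.sum_congr rfl (fun t _ => h2 t), Finset.sum_sub_distrib, congA_sum_affine hF _ hd]
  simp

theorem ringChar_ne_two (hq : Fintype.card F % 16 = 1) : ringChar F ≠ 2 := by
  intro h
  have := FiniteField.even_card_iff_char_two.1 h
  omega

theorem isSquare_neg_one (hq : Fintype.card F % 16 = 1) : IsSquare (-1 : F) := by
  rw [FiniteField.isSquare_neg_one_iff]
  omega

private theorem congA_even_of_invol {α : Type*} [DecidableEq α] (s : Finset α) (g : α → α)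
    (h1 : ∀ x ∈ s, g x ∈ s) (h2 : ∀ x ∈ s, g (g x) = x) (h3 : ∀ x ∈ s, g x ≠ x) :
    Even s.card := by
  have h : ∑ x ∈ s, (1 : ZMod 2) = 0 := by
    refine Finset.sum_involution (fun x _ => g x) ?_ ?_ ?_ ?_
    · intro a _; decide
    · intro a ha _; exact h3 a ha
    · intro a ha; exact h1 a ha
    · intro a ha; exact h2 a ha
  rw [Finset.sum_const, nsmul_eq_mul, mul_one] at h
  exact (ZMod.natCast_eq_zero_iff_even).1 h

private theorem congA_count (hF : ringChar F ≠ 2) (hm : IsSquare (-1 : F)) {a b c : F}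
    (hab : a ≠ b) (hac : a ≠ c) (hbc : b ≠ c) (sab : quadraticChar F (a - b) = 1)
    (sac : quadraticChar F (a - c) = 1) (sbc : quadraticChar F (b - c) = 1) :
    Even (Finset.univ.filter (fun x : F => quadraticChar F (x - a) = 1 ∧
      quadraticChar F (x - b) = 1 ∧ quadraticChar F (x - c) = 1)).card := by
  classical
  have hm1 : quadraticChar F (-1) = 1 := by
    rw [quadraticChar_one_iff_isSquare (neg_ne_zero.2 one_ne_zero)]
    exact hm
  have scb : quadraticChar F (c - b) = 1 := by
    have : c - b = (-1) * (b - c) := by ring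
    rw [this, map_mul, hm1, sbc, one_mul]
  have ne_of : ∀ x y : F, quadraticChar F (x - y) = 1 → x - y ≠ 0 := by
    intro x y h h0
    rw [h0, quadraticChar_zero] at h
    exact zero_ne_one h
  have hinv : ∀ x : F, quadraticChar F x = 1 → quadraticChar F x⁻¹ = 1 := by
    intro x hx
    have h0 : x ≠ 0 := by
      intro h0; rw [h0, quadraticChar_zero] at hx; exact zero_ne_one hx
    have : quadraticChar F (x * x⁻¹) = 1 := by rw [mul_inv_cancel₀ h0, map_one]
    rw [map_mul, hx, one_mul] at this
    exact this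
  have h2 : (2 : F) ≠ 0 := Ring.two_ne_zero hF
  set σ : F → F := fun x => a + (a - b) * (a - c) * (x - a)⁻¹ with hσ
  set g : F → F := fun x => if σ x = x then 2 * a - x else σ x with hg
  have σa : ∀ x, σ x - a = (a - b) * (a - c) * (x - a)⁻¹ := fun x => by
    simp only [hσ]; ring
  have σb : ∀ x, x - a ≠ 0 → σ x - b = (a - b) * (x - c) * (x - a)⁻¹ := fun x hx => by
    simp only [hσ]; field_simp; ring
  have σc : ∀ x, x - a ≠ 0 → σ x - c = (a - c) * (x - b) * (x - a)⁻¹ := fun x hx => by
    simp only [hσ]; field_simp; ring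
  have σσ : ∀ x, x - a ≠ 0 → σ (σ x) = x := fun x hx => by
    have e := σa x
    have hab' : a - b ≠ 0 := sub_ne_zero.2 hab
    have hac' : a - c ≠ 0 := sub_ne_zero.2 hac
    show a + (a - b) * (a - c) * (σ x - a)⁻¹ = x
    rw [e]; field_simp; ring
  have fixsq : ∀ x, x - a ≠ 0 → σ x = x → (x - a) * (x - a) = (a - b) * (a - c) := fun x hx h => by
    have e := σa x
    rw [h] at e
    calc (x - a) * (x - a) = ((a - b) * (a - c) * (x - a)⁻¹) * (x - a) := by
          nth_rewrite 1 [e]; rfl
      _ = (a - b) * (a - c) := by field_simp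
  have sqfix : ∀ x, x - a ≠ 0 → (x - a) * (x - a) = (a - b) * (a - c) → σ x = x := fun x hx h => by
    show a + (a - b) * (a - c) * (x - a)⁻¹ = x
    rw [← h]; field_simp; ring
  refine congA_even_of_invol _ g ?_ ?_ ?_
  · intro x hx
    rw [Finset.mem_filter] at hx ⊢
    obtain ⟨-, xa, xb, xc⟩ := hx
    have hxa := ne_of _ _ xa
    refine ⟨Finset.mem_univ _, ?_⟩
    simp only [hg]
    by_cases hfix : σ x = x
    · rw [if_pos hfix]
      have hs := fixsq x hxa hfix
      have e1 : 2 * a - x - a = (-1) * (x - a) := by ring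
      have e2 : (x - b) * (2 * a - x - b) = (a - b) * (c - b) := by
        have : (x - b) * (2 * a - x - b) = (a - b) * (a - b) - (x - a) * (x - a) := by ring
        rw [this, hs]; ring
      have e3 : (x - c) * (2 * a - x - c) = (a - c) * (b - c) := by
        have : (x - c) * (2 * a - x - c) = (a - c) * (a - c) - (x - a) * (x - a) := by ring
        rw [this, hs]; ring
      refine ⟨by rw [e1, map_mul, hm1, xa, one_mul], ?_, ?_⟩
      · have := congrArg (quadraticChar F) e2
        rwa [map_mul, map_mul, xb, sab, scb, one_mul, one_mul] at this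
      · have := congrArg (quadraticChar F) e3
        rwa [map_mul, map_mul, xc, sac, sbc, one_mul, one_mul] at this
    · rw [if_neg hfix]
      refine ⟨?_, ?_, ?_⟩
      · rw [σa, map_mul, map_mul, sab, sac, hinv _ xa]; rfl
      · rw [σb x hxa, map_mul, map_mul, sab, xc, hinv _ xa]; rfl
      · rw [σc x hxa, map_mul, map_mul, sac, xb, hinv _ xa]; rfl
  · intro x hx
    rw [Finset.mem_filter] at hx
    obtain ⟨-, xa, xb, xc⟩ := hx
    have hxa := ne_of _ _ xa
    simp only [hg]
    by_cases hfix : σ x = x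
    · rw [if_pos hfix]
      have hs := fixsq x hxa hfix
      have hxa' : 2 * a - x - a ≠ 0 := by
        have : 2 * a - x - a = -(x - a) := by ring
        rw [this]; exact neg_ne_zero.2 hxa
      have : σ (2 * a - x) = 2 * a - x := by
        apply sqfix _ hxa'
        rw [← hs]; ring
      rw [if_pos this]; ring
    · rw [if_neg hfix, σσ x hxa]
      rw [if_neg (fun h => hfix h.symm)]
  · intro x hx
    rw [Finset.mem_filter] at hx
    obtain ⟨-, xa, xb, xc⟩ := hx
    have hxa := ne_of _ _ xa
    simp only [hg]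
    by_cases hfix : σ x = x
    · rw [if_pos hfix]
      intro h
      apply hxa
      have : 2 * (x - a) = 0 := by linear_combination -h
      exact (mul_eq_zero.1 this).resolve_left h2
    · rw [if_neg hfix]; exact hfix

private theorem congA_pm (x : F) (hx : x ≠ 0) :
    quadraticChar F x = 1 ∨ quadraticChar F x = -1 := quadraticChar_dichotomy hx

theorem sum_three_mod (hq : Fintype.card F % 16 = 1) (S : Finset F) (hS : S.card = 3)
    (hsq : ∀ c ∈ S, ∀ d ∈ S, IsSquare (c - d)) : (16 : ℤ) ∣ cs F (fp S) + 2 := by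
  classical
  have hF : ringChar F ≠ 2 := ringChar_ne_two hq
  have hm : IsSquare (-1 : F) := isSquare_neg_one hq
  obtain ⟨a, b, c, hab, hac, hbc, rfl⟩ := Finset.card_eq_three.1 hS
  have sq1 : ∀ x ∈ ({a, b, c} : Finset F), ∀ y ∈ ({a, b, c} : Finset F), x ≠ y →
      quadraticChar F (x - y) = 1 := by
    intro x hx y hy hxy
    rw [quadraticChar_one_iff_isSquare (sub_ne_zero.2 hxy)]
    exact hsq x hx y hy
  have ma : a ∈ ({a, b, c} : Finset F) := by simp
  have mb : b ∈ ({a, b, c} : Finset F) := by simp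
  have mc : c ∈ ({a, b, c} : Finset F) := by simp
  have sab := sq1 a ma b mb hab
  have sba := sq1 b mb a ma hab.symm
  have sac := sq1 a ma c mc hac
  have sca := sq1 c mc a ma hac.symm
  have sbc := sq1 b mb c mc hbc
  have scb := sq1 c mc b mb hbc.symm
  obtain ⟨N, hN⟩ := congA_count hF hm hab hac hbc sab sac sbc
  set χ := quadraticChar F with hχ
  have χ0 : χ 0 = 0 := quadraticChar_zero
  set M := Finset.univ.filter (fun x : F => χ (x - a) = 1 ∧ χ (x - b) = 1 ∧ χ (x - c) = 1) with hM
  -- the left side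
  have hL : ∑ x : F, (1 + χ (x - a)) * (1 + χ (x - b)) * (1 + χ (x - c)) = 8 * M.card + 12 := by
    have hpt : ∀ x : F, (1 + χ (x - a)) * (1 + χ (x - b)) * (1 + χ (x - c)) =
        (if χ (x - a) = 1 ∧ χ (x - b) = 1 ∧ χ (x - c) = 1 then (8 : ℤ) else 0)
          + (if x = a then 4 else 0) + (if x = b then 4 else 0) + (if x = c then 4 else 0) := by
      intro x
      by_cases xa : x = a
      · subst xa
        simp [sab, sac, hab, hac, χ0]
      by_cases xb : x = b
      · subst xb
        simp [sba, sbc, hbc, xa, χ0]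
      by_cases xc : x = c
      · subst xc
        simp [sca, scb, xa, xb, χ0]
      rcases congA_pm (x - a) (sub_ne_zero.2 xa) with h1 | h1 <;>
      rcases congA_pm (x - b) (sub_ne_zero.2 xb) with h2 | h2 <;>
      rcases congA_pm (x - c) (sub_ne_zero.2 xc) with h3 | h3 <;>
      · rw [← hχ] at h1 h2 h3
        simp [h1, h2, h3, xa, xb, xc]
    rw [Finset.sum_congr rfl (fun x _ => hpt x)]
    rw [Finset.sum_add_distrib, Finset.sum_add_distrib, Finset.sum_add_distrib,
      ← Finset.sum_filter]
    simp only [Finset.sum_const, Finset.sum_ite_eq', Finset.mem_univ, if_true, nsmul_eq_mul]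
    ring
  have hR : ∑ x : F, (1 + χ (x - a)) * (1 + χ (x - b)) * (1 + χ (x - c)) =
      (Fintype.card F : ℤ) + cs F (X - C a) + cs F (X - C b) + cs F (X - C c)
        + cs F ((X - C a) * (X - C b)) + cs F ((X - C a) * (X - C c))
        + cs F ((X - C b) * (X - C c)) + cs F (fp {a, b, c}) := by
    have hfp : fp ({a, b, c} : Finset F) = (X - C a) * ((X - C b) * (X - C c)) := by
      rw [fp_insert (by simp [hab, hac]), fp_insert (by simp [hbc])]
      unfold fp
      simp
    rw [hfp]
    unfold cs
    have hc : (Fintype.card F : ℤ) = ∑ _x : F, 1 := by simp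
    rw [hc]
    simp only [eval_mul, eval_sub, eval_X, eval_C, map_mul, ← hχ]
    simp only [← Finset.sum_add_distrib]
    apply Finset.sum_congr rfl
    intro x _
    ring
  rw [hL, sum_one hF, sum_one hF, sum_one hF, sum_two hF hab, sum_two hF hac, sum_two hF hbc] at hR
  have hq' : ∃ k : ℤ, (Fintype.card F : ℤ) = 16 * k + 1 := by
    refine ⟨((Fintype.card F / 16 : ℕ) : ℤ), ?_⟩
    have := Nat.div_add_mod (Fintype.card F) 16
    rw [hq] at this
    exact_mod_cast this.symm
  obtain ⟨k, hk⟩ := hq'
  have hMN : (M.card : ℤ) = N + N := by exact_mod_cast hN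
  refine ⟨N + 1 - k, ?_⟩
  rw [hMN, hk] at hR
  linarith

end MPadc574G
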