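import Pool.Agent.Lib.MP_adc574_ag_G2.Basic

/-!
# JOB Moebius: change of variables `x = d + 1 / t`

For `x ≠ d` put `t = 1 / (x - d)`. For `c ∈ S`, `x - c = - (c - d) (t - (c - d)⁻¹) / t`, so
`(x - d) ∏ (x - c) = (-1) ^ |S| ∏ (c - d) ∏ (t - (c - d)⁻¹) / t ^ (|S| + 1)` with `|S| + 1` even and
`-1`, `c - d` squares. So the left side is `∑_{t ≠ 0} χ(∏ (t - (c - d)⁻¹))`, and the term `t = 0` is
`χ((-1) ^ |S| ∏ (c - d)⁻¹) = 1`.
-/

set_option autoImplicit false

namespace MPadc574G

open Polynomial Finset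

variable {F : Type*} [Field F] [Fintype F] [DecidableEq F]

/-- the transformed set -/
noncomputable def mob (d : F) (S : Finset F) : Finset F := S.image (fun c => (c - d)⁻¹)

theorem card_mob (d : F) (S : Finset F) : (mob d S).card = S.card := by
  unfold mob
  rw [Finset.card_image_of_injective]
  intro a b h
  simpa using h

theorem mob_sq {d : F} {S : Finset F} (hsq : ∀ c ∈ insert d S, ∀ c' ∈ insert d S, IsSquare (c - c')) :
    ∀ c ∈ mob d S, ∀ c' ∈ mob d S, IsSquare (c - c') := by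
  intro c hc c' hc'
  unfold mob at hc hc'
  rw [Finset.mem_image] at hc hc'
  obtain ⟨a, ha, rfl⟩ := hc
  obtain ⟨b, hb, rfl⟩ := hc'
  have ha' : a ∈ insert d S := Finset.mem_insert_of_mem ha
  have hb' : b ∈ insert d S := Finset.mem_insert_of_mem hb
  have hd' : d ∈ insert d S := Finset.mem_insert_self d S
  by_cases h1 : a = d
  · subst h1
    rw [sub_self, inv_zero, zero_sub, ← inv_neg, neg_sub]
    exact (hsq _ hd' _ hb').inv
  by_cases h2 : b = d
  · subst h2
    rw [sub_self, inv_zero, sub_zero]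
    exact (hsq _ ha' _ hd').inv
  have h1' : a - d ≠ 0 := sub_ne_zero.mpr h1
  have h2' : b - d ≠ 0 := sub_ne_zero.mpr h2
  have : (a - d)⁻¹ - (b - d)⁻¹ = (b - a) * ((a - d)⁻¹ * (b - d)⁻¹) := by
    field_simp
    ring
  rw [this]
  exact (hsq _ hb' _ ha').mul ((hsq _ ha' _ hd').inv.mul (hsq _ hb' _ hd').inv)

/-- the bijection `x ↦ (x - d)⁻¹` -/
private def mobEquiv (d : F) : F ≃ F where
  toFun x := (x - d)⁻¹
  invFun t := t⁻¹ + d
  left_inv x := by simp
  right_inv t := by simp

theorem sum_mob (d : F) (S : Finset F) (hd : d ∉ S) (hodd : Odd S.card)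
    (hsq : ∀ c ∈ S, IsSquare (c - d)) (hm : IsSquare (-1 : F)) :
    cs F (fp (insert d S)) = cs F (fp (mob d S)) - 1 := by
  obtain ⟨i, hi⟩ := hm
  have hi0 : i ≠ 0 := by
    rintro rfl
    simp at hi
  have hprod : ∀ t : F, quadraticChar F ((fp (mob d S)).eval t) =
      ∏ c ∈ S, quadraticChar F (t - (c - d)⁻¹) := by
    intro t
    rw [eval_fp, map_prod]
    unfold mob
    rw [Finset.prod_image]
    intro a _ b _ h
    simpa using h
  have hprod' : ∀ x : F, quadraticChar F ((fp (insert d S)).eval x) =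
      quadraticChar F (x - d) * ∏ c ∈ S, quadraticChar F (x - c) := by
    intro x
    rw [eval_fp, map_prod, Finset.prod_insert hd]
  have key : ∀ x : F, x ≠ d → ∀ c ∈ S, quadraticChar F ((x - d)⁻¹ - (c - d)⁻¹) =
      quadraticChar F (x - d) * quadraticChar F (x - c) := by
    intro x hx c hc
    have hx' : x - d ≠ 0 := sub_ne_zero.mpr hx
    have hc' : c - d ≠ 0 := by
      intro h
      exact hd ((sub_eq_zero.mp h) ▸ hc)
    obtain ⟨s, hs⟩ := hsq c hc
    have hs0 : s ≠ 0 := by
      rintro rfl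
      exact hc' (by simpa using hs)
    have e : (x - d)⁻¹ - (c - d)⁻¹ =
        ((x - d) * (x - c)) * (i * s * ((x - d)⁻¹ * (c - d)⁻¹)) ^ 2 := by
      have : (i * s * ((x - d)⁻¹ * (c - d)⁻¹)) ^ 2 = (i * i) * (s * s) * ((x - d)⁻¹ * (c - d)⁻¹) ^ 2 := by
        ring
      rw [this, ← hi, ← hs]
      field_simp
      ring
    rw [e, map_mul, quadraticChar_sq_one', mul_one, map_mul]
    exact mul_ne_zero (mul_ne_zero hi0 hs0) (mul_ne_zero (inv_ne_zero hx') (inv_ne_zero hc'))
  have h0 : ∀ c ∈ S, quadraticChar F (0 - (c - d)⁻¹) = 1 := by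
    intro c hc
    have hc' : c - d ≠ 0 := by
      intro h
      exact hd ((sub_eq_zero.mp h) ▸ hc)
    obtain ⟨s, hs⟩ := hsq c hc
    have hs0 : s ≠ 0 := by
      rintro rfl
      exact hc' (by simpa using hs)
    have e : 0 - (c - d)⁻¹ = (i * s⁻¹) ^ 2 := by
      have : (i * s⁻¹) ^ 2 = (i * i) * (s * s)⁻¹ := by
        rw [mul_inv]
        ring
      rw [this, ← hi, ← hs]
      ring
    rw [e, quadraticChar_sq_one']
    exact mul_ne_zero hi0 (inv_ne_zero hs0)
  have hsum : ∑ x : F, (quadraticChar F ((fp (mob d S)).eval ((x - d)⁻¹)) -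
      quadraticChar F ((fp (insert d S)).eval x)) = 1 := by
    rw [Fintype.sum_eq_single d]
    · rw [hprod, hprod', sub_self, inv_zero, MulChar.map_zero, zero_mul, sub_zero,
        Finset.prod_congr rfl h0, Finset.prod_const_one]
    · intro x hx
      rw [hprod, hprod', Finset.prod_congr rfl (key x hx), Finset.prod_mul_distrib, Finset.prod_const]
      have hx' : x - d ≠ 0 := sub_ne_zero.mpr hx
      have hp : quadraticChar F (x - d) ^ S.card = quadraticChar F (x - d) := by
        obtain ⟨k, hk⟩ := hodd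
        rw [hk, pow_succ, pow_mul, quadraticChar_sq_one hx', one_pow, one_mul]
      rw [hp, sub_self]
  rw [Finset.sum_sub_distrib] at hsum
  have hcomp : ∑ x : F, quadraticChar F ((fp (mob d S)).eval ((x - d)⁻¹)) = cs F (fp (mob d S)) := by
    unfold cs
    exact Equiv.sum_comp (mobEquiv d) (fun t => quadraticChar F ((fp (mob d S)).eval t))
  rw [hcomp] at hsum
  unfold cs at hsum ⊢
  linarith

end MPadc574G
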