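import Pool.Agent.Lib.MP_adc574_ag_G2.CongA
import Pool.Agent.Lib.MP_adc574_ag_G2.Moebius

/-!
# JOB CongB: congruences for quartic and quintic sums

`sum_four_mod`: `S = insert d S'`, `|S'| = 3`, `sum_mob`, `sum_three_mod` for `mob d S'` (`card_mob`, `mob_sq`).

`sum_five_mod`: `∑_x ∏_{c ∈ S} (1 + χ(x - c)) = ∑_{T ⊆ S} cs F (fp T)` (`Finset.prod_one_add` / `Finset.prod_add`). The
left side is divisible by `16`: the term of `x ∉ S` is `0` or `32`, that of `x ∈ S` is `2 ^ 4` (differences are
nonzero squares). The terms with `|T| = 0, 1, 2, 3, 4` are `q`, `0`, `-1`, `≡ -2`, `≡ -3`, and there are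
`1, 5, 10, 10, 5` of them: `0 ≡ q - 10 - 20 - 15 + T₅ ≡ T₅ - 44 ≡ T₅ + 4` modulo `16`.
-/

set_option autoImplicit false

namespace MPadc574G

open Polynomial Finset

variable {F : Type*} [Field F] [Fintype F] [DecidableEq F]

theorem sum_four_mod (hq : Fintype.card F % 16 = 1) (S : Finset F) (hS : S.card = 4)
    (hsq : ∀ c ∈ S, ∀ d ∈ S, IsSquare (c - d)) : (16 : ℤ) ∣ cs F (fp S) + 3 := by
  have hne : S.Nonempty := by
    rw [← Finset.card_pos, hS]
    norm_num
  obtain ⟨d, hd⟩ := hne
  have hins : insert d (S.erase d) = S := Finset.insert_erase hd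
  have hcard : (S.erase d).card = 3 := by
    rw [Finset.card_erase_of_mem hd, hS]
  have h1 : cs F (fp (insert d (S.erase d))) = cs F (fp (mob d (S.erase d))) - 1 := by
    refine sum_mob d (S.erase d) (Finset.notMem_erase d S) ?_ ?_ (isSquare_neg_one hq)
    · rw [hcard]
      decide
    · intro c hc
      exact hsq c (Finset.mem_of_mem_erase hc) d hd
  have h2 : (16 : ℤ) ∣ cs F (fp (mob d (S.erase d))) + 2 := by
    refine sum_three_mod hq (mob d (S.erase d)) ?_ ?_
    · rw [card_mob, hcard]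
    · apply mob_sq
      rw [hins]
      exact hsq
  rw [hins] at h1
  rw [h1]
  have e : cs F (fp (mob d (S.erase d))) - 1 + 3 = cs F (fp (mob d (S.erase d))) + 2 := by ring
  rw [e]
  exact h2

private theorem CongB_expand (S : Finset F) :
    ∑ x : F, ∏ c ∈ S, (1 + quadraticChar F (x - c)) = ∑ T ∈ S.powerset, cs F (fp T) := by
  have h1 : ∀ x : F, ∏ c ∈ S, (1 + quadraticChar F (x - c)) =
      ∑ T ∈ S.powerset, quadraticChar F ((fp T).eval x) := by
    intro x
    rw [Finset.prod_one_add]
    refine Finset.sum_congr rfl fun T _ => ?_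
    rw [eval_fp, map_prod]
  simp only [h1]
  rw [Finset.sum_comm]
  rfl

private theorem CongB_term {S : Finset F} (hS : S.card = 5)
    (hsq : ∀ c ∈ S, ∀ d ∈ S, IsSquare (c - d)) (x : F) :
    (16 : ℤ) ∣ ∏ c ∈ S, (1 + quadraticChar F (x - c)) := by
  by_cases hx : x ∈ S
  · rw [← Finset.mul_prod_erase S _ hx]
    have h1 : ∏ c ∈ S.erase x, (1 + quadraticChar F (x - c)) = 16 := by
      have h2 : ∏ c ∈ S.erase x, (1 + quadraticChar F (x - c)) = ∏ c ∈ S.erase x, (2 : ℤ) := by
        refine Finset.prod_congr rfl fun c hc => ?_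
        have hne : x - c ≠ 0 := sub_ne_zero.2 (Finset.ne_of_mem_erase hc).symm
        have h3 : quadraticChar F (x - c) = 1 :=
          (quadraticChar_one_iff_isSquare hne).2 (hsq x hx c (Finset.mem_of_mem_erase hc))
        rw [h3]
        norm_num
      rw [h2, Finset.prod_const, Finset.card_erase_of_mem hx, hS]
      norm_num
    rw [h1]
    exact Dvd.intro_left _ rfl
  · by_cases h0 : ∃ c ∈ S, quadraticChar F (x - c) = -1
    · obtain ⟨c, hc, h⟩ := h0
      have : ∏ c ∈ S, (1 + quadraticChar F (x - c)) = 0 := by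
        refine Finset.prod_eq_zero hc ?_
        rw [h]
        norm_num
      rw [this]
      exact dvd_zero _
    · have h2 : ∏ c ∈ S, (1 + quadraticChar F (x - c)) = ∏ c ∈ S, (2 : ℤ) := by
        refine Finset.prod_congr rfl fun c hc => ?_
        have hne : x - c ≠ 0 := by
          intro h
          rw [sub_eq_zero] at h
          exact hx (h ▸ hc)
        rcases quadraticChar_dichotomy hne with h | h
        · rw [h]
          norm_num
        · exact absurd ⟨c, hc, h⟩ h0
      rw [h2, Finset.prod_const, hS]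
      norm_num

theorem sum_five_mod (hq : Fintype.card F % 16 = 1) (S : Finset F) (hS : S.card = 5)
    (hsq : ∀ c ∈ S, ∀ d ∈ S, IsSquare (c - d)) : (16 : ℤ) ∣ cs F (fp S) + 4 := by
  have hF := ringChar_ne_two hq
  have hL : (16 : ℤ) ∣ ∑ T ∈ S.powerset, cs F (fp T) := by
    rw [← CongB_expand]
    exact Finset.dvd_sum fun x _ => CongB_term hS hsq x
  rw [Finset.sum_powerset, hS] at hL
  simp only [Finset.sum_range_succ, Finset.sum_range_zero, zero_add] at hL
  have hsub : ∀ {T : Finset F}, T ⊆ S → ∀ c ∈ T, ∀ d ∈ T, IsSquare (c - d) :=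
    fun hT c hc d hd => hsq c (hT hc) d (hT hd)
  have e0 : ∑ T ∈ Finset.powersetCard 0 S, cs F (fp T) = Fintype.card F := by
    rw [Finset.powersetCard_zero, Finset.sum_singleton]
    have : fp (∅ : Finset F) = 1 := by
      unfold fp
      simp
    rw [this, cs_one]
  have e1 : ∑ T ∈ Finset.powersetCard 1 S, cs F (fp T) = 0 := by
    refine Finset.sum_eq_zero fun T hT => ?_
    obtain ⟨-, hT2⟩ := Finset.mem_powersetCard.1 hT
    obtain ⟨a, rfl⟩ := Finset.card_eq_one.1 hT2
    have : fp ({a} : Finset F) = X - C a := by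
      unfold fp
      simp
    rw [this, sum_one hF]
  have e2 : ∑ T ∈ Finset.powersetCard 2 S, cs F (fp T) = -10 := by
    have h2 : ∑ T ∈ Finset.powersetCard 2 S, cs F (fp T) =
        ∑ T ∈ Finset.powersetCard 2 S, (-1 : ℤ) := by
      refine Finset.sum_congr rfl fun T hT => ?_
      obtain ⟨-, hT2⟩ := Finset.mem_powersetCard.1 hT
      obtain ⟨a, b, hab, rfl⟩ := Finset.card_eq_two.1 hT2
      have : fp ({a, b} : Finset F) = (X - C a) * (X - C b) := by
        rw [fp_insert (by simpa using hab)]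
        congr 1
        unfold fp
        simp
      rw [this, sum_two hF hab]
    rw [h2, Finset.sum_const, Finset.card_powersetCard, hS]
    decide
  have e3 : (16 : ℤ) ∣ (∑ T ∈ Finset.powersetCard 3 S, cs F (fp T)) + 20 := by
    have h3 : (16 : ℤ) ∣ ∑ T ∈ Finset.powersetCard 3 S, (cs F (fp T) + 2) := by
      refine Finset.dvd_sum fun T hT => ?_
      obtain ⟨hT1, hT2⟩ := Finset.mem_powersetCard.1 hT
      exact sum_three_mod hq T hT2 (hsub hT1)
    rw [Finset.sum_add_distrib, Finset.sum_const, Finset.card_powersetCard, hS] at h3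
    have h4 : (Nat.choose 5 3) • (2 : ℤ) = 20 := by decide
    rwa [h4] at h3
  have e4 : (16 : ℤ) ∣ (∑ T ∈ Finset.powersetCard 4 S, cs F (fp T)) + 15 := by
    have h3 : (16 : ℤ) ∣ ∑ T ∈ Finset.powersetCard 4 S, (cs F (fp T) + 3) := by
      refine Finset.dvd_sum fun T hT => ?_
      obtain ⟨hT1, hT2⟩ := Finset.mem_powersetCard.1 hT
      exact sum_four_mod hq T hT2 (hsub hT1)
    rw [Finset.sum_add_distrib, Finset.sum_const, Finset.card_powersetCard, hS] at h3
    have h4 : (Nat.choose 5 4) • (3 : ℤ) = 15 := by decide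
    rwa [h4] at h3
  have e5 : ∑ T ∈ Finset.powersetCard 5 S, cs F (fp T) = cs F (fp S) := by
    rw [← hS, Finset.powersetCard_self, Finset.sum_singleton]
  rw [e0, e1, e2, e5] at hL
  have hq' : (16 : ℤ) ∣ (Fintype.card F : ℤ) - 1 := by omega
  omega

end MPadc574G
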