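import Pool.Agent.Lib.MP_adc574_ag_G2.Basic

/-!
# JOB Trace: character sums modulo `p` in terms of the Hasse–Witt matrix

Modulo `p`: `χ(y) = y ^ ((q - 1) / 2)` (`quadraticChar_eq_pow_of_char_ne_two'`), and
`∑_{x ∈ F} x ^ m = -1` if `m > 0` and `q - 1 ∣ m`, and `0` otherwise (`FiniteField.sum_pow_units`;
`MPadc574.sum_pow_zmod` in `Pool/Agent/Lib/MP_adc574_ag/CharSum.lean` for `ZMod p`).
With `h = f ^ ((p - 1) / 2)` of degree `≤ 3 (p - 1)`, `trace_one` is immediate. For `trace_two`, `q = p ^ 2`,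
`f ^ ((q - 1) / 2) = h ^ (p + 1) = h * h(X ^ p)` (`expand`, coefficients in the prime field,
`ZMod.expand_card` or `Polynomial.expand_char`), of degree `≤ 3 (p ^ 2 - 1)`. For `k = 1, 2, 3` its coefficient at `k (p ^ 2 - 1)` is
`∑ h_i h_j` over `i + p j = k (p ^ 2 - 1)`; so `i = l p - k`, `j = k p - l` with `l ≥ 1`, and `i, j ≤ 3 (p - 1)` leaves
`l = 1, 2` for `k = 1, 2` and `l = 3` for `k = 3`.
-/

set_option autoImplicit false

namespace MPadc574G

open Polynomial Finset

private theorem Trace_sum_pow (F : Type*) [Field F] [Fintype F] (i : ℕ) :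
    (∑ x : F, x ^ i) = if 0 < i ∧ (Fintype.card F - 1) ∣ i then (-1 : F) else 0 := by
  classical
  rcases Nat.eq_zero_or_pos i with rfl | hi
  · simp
  · have h1 : (∑ x : F, x ^ i) = ∑ x : Fˣ, (x ^ i : F) := by
      have h2 : (∑ x : F, x ^ i) = ∑ x ∈ univ.erase (0 : F), x ^ i := by
        rw [← Finset.add_sum_erase univ (fun x : F => x ^ i) (Finset.mem_univ 0)]
        rw [zero_pow hi.ne', zero_add]
      rw [h2]
      symm
      apply Finset.sum_bij (fun (x : Fˣ) _ => (x : F))
      · intro x _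
        simp
      · intro x _ y _ h
        exact Units.ext h
      · intro y hy
        have hy0 : y ≠ 0 := by simpa using hy
        exact ⟨Units.mk0 y hy0, Finset.mem_univ _, rfl⟩
      · intro x _
        rfl
    rw [h1, FiniteField.sum_pow_units]
    simp [hi]

private theorem Trace_sum_eval (F : Type*) [Field F] [Fintype F] (g : F[X])
    (hg : g.natDegree ≤ 3 * (Fintype.card F - 1)) :
    ∑ x : F, g.eval x = -(g.coeff (Fintype.card F - 1) + g.coeff (2 * (Fintype.card F - 1)) +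
      g.coeff (3 * (Fintype.card F - 1))) := by
  classical
  have hq : 1 < Fintype.card F := Fintype.one_lt_card
  obtain ⟨m, hm⟩ : ∃ m, Fintype.card F - 1 = m := ⟨_, rfl⟩
  have hm0 : 0 < m := by omega
  rw [hm] at hg ⊢
  have h1 : ∀ x : F, g.eval x = ∑ i ∈ range (3 * m + 1), g.coeff i * x ^ i := by
    intro x
    exact eval_eq_sum_range' (by omega) x
  simp_rw [h1]
  rw [Finset.sum_comm]
  have h2 : ∀ i ∈ range (3 * m + 1), (∑ x : F, g.coeff i * x ^ i) =
      if 0 < i ∧ m ∣ i then -g.coeff i else 0 := by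
    intro i _
    rw [← Finset.mul_sum, Trace_sum_pow, hm]
    split_ifs <;> simp
  rw [Finset.sum_congr rfl h2, ← Finset.sum_filter]
  have h3 : (range (3 * m + 1)).filter (fun i => 0 < i ∧ m ∣ i) = {m, 2 * m, 3 * m} := by
    ext i
    simp only [Finset.mem_filter, Finset.mem_range, Finset.mem_insert, Finset.mem_singleton]
    constructor
    · rintro ⟨h4, h5, k, rfl⟩
      have hk : k < 4 := by
        by_contra hk
        have : m * 4 ≤ m * k := Nat.mul_le_mul_left m (by omega)
        omega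
      have hk0 : k ≠ 0 := by
        rintro rfl
        simp at h5
      interval_cases k
      · exact absurd rfl hk0
      · left; omega
      · right; left; omega
      · right; right; omega
    · rintro (rfl | rfl | rfl)
      · exact ⟨by omega, by omega, dvd_rfl⟩
      · exact ⟨by omega, by omega, Dvd.intro_left 2 rfl⟩
      · exact ⟨by omega, by omega, Dvd.intro_left 3 rfl⟩
  rw [h3, Finset.sum_insert, Finset.sum_insert, Finset.sum_singleton]
  · ring
  · simp only [Finset.mem_singleton]; omega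
  · simp only [Finset.mem_insert, Finset.mem_singleton]; omega

private theorem Trace_cs (F : Type*) [Field F] [Fintype F] [DecidableEq F] (hF : ringChar F ≠ 2)
    (f : F[X]) : ((cs F f : ℤ) : F) = ∑ x : F, (f ^ (Fintype.card F / 2)).eval x := by
  unfold cs
  rw [Int.cast_sum]
  apply Finset.sum_congr rfl
  intro x _
  rw [quadraticChar_eq_pow_of_char_ne_two' hF, eval_pow]

theorem trace_one {p : ℕ} [Fact p.Prime] (hp2 : p ≠ 2) (f : (ZMod p)[X]) (hf : f.natDegree ≤ 6)
    (h : (ZMod p)[X]) (hh : h = f ^ ((p - 1) / 2)) :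
    ((cs (ZMod p) f : ℤ) : ZMod p) =
      -(h.coeff (p - 1) + h.coeff (2 * p - 2) + h.coeff (3 * p - 3)) := by
  have hp : p.Prime := Fact.out
  have hodd : p % 2 = 1 := hp.eq_two_or_odd.resolve_left hp2
  have hch : ringChar (ZMod p) ≠ 2 := by rwa [ZMod.ringChar_zmod_n]
  have hh2 : f ^ (Fintype.card (ZMod p) / 2) = h := by
    rw [hh, ZMod.card]
    congr 1
    omega
  have hdeg : h.natDegree ≤ 3 * (Fintype.card (ZMod p) - 1) := by
    rw [hh, ZMod.card]
    calc (f ^ ((p - 1) / 2)).natDegree ≤ (p - 1) / 2 * f.natDegree := natDegree_pow_le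
      _ ≤ (p - 1) / 2 * 6 := Nat.mul_le_mul_left _ hf
      _ ≤ 3 * (p - 1) := by omega
  rw [Trace_cs (ZMod p) hch f, hh2, Trace_sum_eval (ZMod p) h hdeg, ZMod.card]
  rw [Nat.mul_sub, Nat.mul_sub]

private theorem Trace_coeff {p : ℕ} [Fact p.Prime] (h : (ZMod p)[X])
    (hd : h.natDegree ≤ 3 * (p - 1)) (n : ℕ) :
    (h * h ^ p).coeff n = ∑ j ∈ range (3 * (p - 1) + 1),
      h.coeff j * (if p * j ≤ n then h.coeff (n - p * j) else 0) := by
  rw [← ZMod.expand_card]
  have h1 : expand (ZMod p) p h = ∑ j ∈ range (3 * (p - 1) + 1), C (h.coeff j) * X ^ (p * j) := by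
    conv_lhs => rw [h.as_sum_range_C_mul_X_pow' (show h.natDegree < 3 * (p - 1) + 1 by omega)]
    rw [map_sum]
    apply Finset.sum_congr rfl
    intro j _
    rw [map_mul, expand_C, map_pow, expand_X, ← pow_mul]
  rw [h1, Finset.mul_sum, finsetSum_coeff]
  apply Finset.sum_congr rfl
  intro j _
  rw [show h * (C (h.coeff j) * X ^ (p * j)) = C (h.coeff j) * (h * X ^ (p * j)) by ring,
    coeff_C_mul, coeff_mul_X_pow']

theorem trace_two {p : ℕ} [Fact p.Prime] (hp2 : p ≠ 2) (f : (ZMod p)[X]) (hf : f.natDegree ≤ 6)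
    (h : (ZMod p)[X]) (hh : h = f ^ ((p - 1) / 2)) (F : Type*) [Field F] [Fintype F]
    [DecidableEq F] [Algebra (ZMod p) F] (hF : Fintype.card F = p ^ 2) :
    ((cs F (f.map (algebraMap (ZMod p) F)) : ℤ) : ZMod p) =
      -(h.coeff (p - 1) ^ 2 + 2 * h.coeff (p - 2) * h.coeff (2 * p - 1) + h.coeff (2 * p - 2) ^ 2 +
        h.coeff (3 * p - 3) ^ 2) := by
  have hp : p.Prime := Fact.out
  have hodd : p % 2 = 1 := hp.eq_two_or_odd.resolve_left hp2
  have hp3 : 3 ≤ p := by have := hp.two_le; omega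
  have : CharP F p := charP_of_injective_algebraMap (algebraMap (ZMod p) F).injective p
  have hch : ringChar F ≠ 2 := by rwa [ringChar.eq F p]
  apply (algebraMap (ZMod p) F).injective
  rw [map_intCast, Trace_cs F hch, ← Polynomial.map_pow]
  obtain ⟨s, hs⟩ : ∃ s, p = 2 * s + 1 := ⟨p / 2, by omega⟩
  have hsq : p ^ 2 / 2 = (p - 1) / 2 * (p + 1) := by
    subst hs
    have e1 : (2 * s + 1) ^ 2 = 2 * (s * (2 * s + 1 + 1)) + 1 := by ring
    have e2 : (2 * s + 1 - 1) / 2 = s := by omega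
    rw [e2, e1]
    omega
  have hpow : f ^ (Fintype.card F / 2) = h * h ^ p := by
    rw [hF, hsq, pow_mul, ← hh, pow_succ, mul_comm]
  have hd : h.natDegree ≤ 3 * (p - 1) := by
    rw [hh]
    calc (f ^ ((p - 1) / 2)).natDegree ≤ (p - 1) / 2 * f.natDegree := natDegree_pow_le
      _ ≤ (p - 1) / 2 * 6 := Nat.mul_le_mul_left _ hf
      _ ≤ 3 * (p - 1) := by omega
  have hp2' : p ^ 2 - 1 = (p - 1) * (p + 1) := by
    subst hs
    have e1 : (2 * s + 1) ^ 2 = (2 * s + 1 - 1) * (2 * s + 1 + 1) + 1 := by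
      rw [Nat.add_sub_cancel]; ring
    rw [e1, Nat.add_sub_cancel]
  have hdeg : ((h * h ^ p).map (algebraMap (ZMod p) F)).natDegree ≤ 3 * (Fintype.card F - 1) := by
    rw [hF]
    calc ((h * h ^ p).map (algebraMap (ZMod p) F)).natDegree ≤ (h * h ^ p).natDegree :=
          natDegree_map_le
      _ = (h ^ (p + 1)).natDegree := by rw [pow_succ, mul_comm]
      _ ≤ (p + 1) * h.natDegree := natDegree_pow_le
      _ ≤ (p + 1) * (3 * (p - 1)) := Nat.mul_le_mul_left _ hd
      _ = 3 * (p ^ 2 - 1) := by rw [hp2']; ring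
  rw [hpow, Trace_sum_eval F _ hdeg, hF, coeff_map, coeff_map, coeff_map, ← map_add, ← map_add,
    ← map_neg]
  congr 1
  have hz : ∀ m, 3 * (p - 1) < m → h.coeff m = 0 := fun m hm =>
    coeff_eq_zero_of_natDegree_lt (by omega)
  -- squares
  have hpp : p ^ 2 = p * p := sq p
  have c1 : (h * h ^ p).coeff (p ^ 2 - 1) =
      h.coeff (p - 1) ^ 2 + h.coeff (p - 2) * h.coeff (2 * p - 1) := by
    rw [Trace_coeff h hd]
    rw [Finset.sum_eq_add (p - 1) (p - 2) (by omega)]
    · have e1 : p * (p - 1) = p ^ 2 - p := by rw [Nat.mul_sub, hpp, mul_one]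
      have e2 : p * (p - 2) = p ^ 2 - 2 * p := by rw [Nat.mul_sub, hpp, mul_comm p 2]
      have e3 : 3 * p ≤ p ^ 2 := by rw [hpp]; exact Nat.mul_le_mul_right p hp3
      rw [if_pos (by omega), if_pos (by omega), e1, e2]
      rw [show p ^ 2 - 1 - (p ^ 2 - p) = p - 1 by omega,
        show p ^ 2 - 1 - (p ^ 2 - 2 * p) = 2 * p - 1 by omega]
      ring
    · rintro j hj ⟨hj1, hj2⟩
      split_ifs with hle
      · rw [hz (p ^ 2 - 1 - p * j), mul_zero]
        have hj3 : j ≤ p - 3 := by
          by_contra hcon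
          have : p ≤ j := by omega
          have := Nat.mul_le_mul_left p this
          have e3 : 3 * p ≤ p ^ 2 := by rw [hpp]; exact Nat.mul_le_mul_right p hp3
          omega
        have e4 : p * j ≤ p * (p - 3) := Nat.mul_le_mul_left p hj3
        have e5 : p * (p - 3) = p ^ 2 - 3 * p := by rw [Nat.mul_sub, hpp, mul_comm p 3]
        have e3 : 3 * p ≤ p ^ 2 := by rw [hpp]; exact Nat.mul_le_mul_right p hp3
        omega
      · exact mul_zero _
    · intro hj; exact absurd (Finset.mem_range.2 (by omega)) hj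
    · intro hj; exact absurd (Finset.mem_range.2 (by omega)) hj
  have c2 : (h * h ^ p).coeff (2 * (p ^ 2 - 1)) =
      h.coeff (2 * p - 2) ^ 2 + h.coeff (p - 2) * h.coeff (2 * p - 1) := by
    rw [Trace_coeff h hd]
    have e3 : 3 * p ≤ p ^ 2 := by rw [hpp]; exact Nat.mul_le_mul_right p hp3
    rw [Finset.sum_eq_add (2 * p - 2) (2 * p - 1) (by omega)]
    · have e1 : p * (2 * p - 2) = 2 * p ^ 2 - 2 * p := by rw [Nat.mul_sub, hpp]; ring_nf
      have e2 : p * (2 * p - 1) = 2 * p ^ 2 - p := by rw [Nat.mul_sub, hpp]; ring_nf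
      rw [if_pos (by omega), if_pos (by omega), e1, e2]
      rw [show 2 * (p ^ 2 - 1) - (2 * p ^ 2 - 2 * p) = 2 * p - 2 by omega,
        show 2 * (p ^ 2 - 1) - (2 * p ^ 2 - p) = p - 2 by omega]
      ring
    · rintro j hj ⟨hj1, hj2⟩
      split_ifs with hle
      · rw [hz (2 * (p ^ 2 - 1) - p * j), mul_zero]
        have hj3 : j ≤ 2 * p - 3 := by
          by_contra hcon
          have : 2 * p ≤ j := by omega
          have h6 := Nat.mul_le_mul_left p this
          have e6 : p * (2 * p) = 2 * p ^ 2 := by rw [hpp]; ring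
          omega
        have e4 : p * j ≤ p * (2 * p - 3) := Nat.mul_le_mul_left p hj3
        have e5 : p * (2 * p - 3) = 2 * p ^ 2 - 3 * p := by rw [Nat.mul_sub, hpp]; ring_nf
        omega
      · exact mul_zero _
    · intro hj; exact absurd (Finset.mem_range.2 (by omega)) hj
    · intro hj; exact absurd (Finset.mem_range.2 (by omega)) hj
  have c3 : (h * h ^ p).coeff (3 * (p ^ 2 - 1)) = h.coeff (3 * p - 3) ^ 2 := by
    rw [Trace_coeff h hd]
    have e3 : 3 * p ≤ p ^ 2 := by rw [hpp]; exact Nat.mul_le_mul_right p hp3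
    rw [Finset.sum_eq_single (3 * p - 3)]
    · have e1 : p * (3 * p - 3) = 3 * p ^ 2 - 3 * p := by rw [Nat.mul_sub, hpp]; ring_nf
      rw [if_pos (by omega), e1]
      rw [show 3 * (p ^ 2 - 1) - (3 * p ^ 2 - 3 * p) = 3 * p - 3 by omega]
      ring
    · intro j hj hj1
      rw [Finset.mem_range] at hj
      split_ifs with hle
      · rw [hz (3 * (p ^ 2 - 1) - p * j), mul_zero]
        have hj3 : j ≤ 3 * p - 4 := by omega
        have e4 : p * j ≤ p * (3 * p - 4) := Nat.mul_le_mul_left p hj3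
        have e5 : p * (3 * p - 4) = 3 * p ^ 2 - 4 * p := by rw [Nat.mul_sub, hpp]; ring_nf
        omega
      · exact mul_zero _
    · intro hj; exact absurd (Finset.mem_range.2 (by omega)) hj
  rw [c1, c2, c3]
  ring

end MPadc574G
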