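import Pool.Agent.Lib.MP_adc574_ag_G2.Weil
import Pool.Agent.Lib.MP_adc574_ag_G2.CongB
import Pool.Agent.Lib.MP_adc574_ag_G2.Trace
import Pool.Agent.Lib.MP_adc574_ag.Cartier

/-!
# The Cartier–Manin matrix of a curve of genus two with suitable branch points is invertible
-/

set_option autoImplicit false

namespace MPadc574G

open Polynomial Finset MPadc574

/-- the archimedean part -/
theorem arch (α : Fin 4 → ℂ) {p : ℝ} (hα : ∀ i, ‖α i‖ ^ 2 ≤ p) {a s : ℝ}
    (ha : (a : ℂ) = ∑ i, α i) (hs : (s : ℂ) = ∑ i, α i ^ 2) :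
    a ^ 2 - s ≤ 12 * p ∧ -(4 * p) ≤ a ^ 2 - s ∧ (a ^ 2 - s = 12 * p → a ^ 2 = 16 * p) ∧
      (a ^ 2 - s = -(4 * p) → a = 0) := by
  have h1 : ∀ i, (α i).re ^ 2 + (α i).im ^ 2 ≤ p := by
    intro i
    have := hα i
    rw [← Complex.normSq_eq_norm_sq, Complex.normSq_apply] at this
    linarith [this, sq (α i).re, sq (α i).im]
  have hare : a = ∑ i, (α i).re := by
    have := congrArg Complex.re ha
    simpa using this
  have hsre : s = ∑ i, ((α i).re ^ 2 - (α i).im ^ 2) := by
    have := congrArg Complex.re hs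
    simp only [Complex.ofReal_re, Complex.re_sum] at this
    rw [this]
    apply Finset.sum_congr rfl
    intro i _
    rw [sq, Complex.mul_re]
    ring
  simp only [Fin.sum_univ_four] at hare hsre
  have e0 := h1 0
  have e1 := h1 1
  have e2 := h1 2
  have e3 := h1 3
  set x0 := (α 0).re
  set x1 := (α 1).re
  set x2 := (α 2).re
  set x3 := (α 3).re
  set y0 := (α 0).im
  set y1 := (α 1).im
  set y2 := (α 2).im
  set y3 := (α 3).im
  have hcs : a ^ 2 ≤ 4 * (x0 ^ 2 + x1 ^ 2 + x2 ^ 2 + x3 ^ 2) := by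
    rw [hare]
    nlinarith [sq_nonneg (x0 - x1), sq_nonneg (x0 - x2), sq_nonneg (x0 - x3), sq_nonneg (x1 - x2),
      sq_nonneg (x1 - x3), sq_nonneg (x2 - x3)]
  have hy0 := sq_nonneg y0
  have hy1 := sq_nonneg y1
  have hy2 := sq_nonneg y2
  have hy3 := sq_nonneg y3
  have ha2 := sq_nonneg a
  have hx0 := sq_nonneg x0
  have hx1 := sq_nonneg x1
  have hx2 := sq_nonneg x2
  have hx3 := sq_nonneg x3
  refine ⟨by linarith, by linarith, fun h => by linarith, fun h => ?_⟩
  have : a ^ 2 = 0 := by linarith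
  exact pow_eq_zero_iff (by norm_num) |>.1 this

theorem not_dvd {p : ℕ} [Fact p.Prime] (hp : p % 16 = 1) (S : Finset (ZMod p)) (hS : S.card = 5)
    (hsq : ∀ c ∈ S, ∀ d ∈ S, IsSquare (c - d)) (F : Type) [Field F] [Fintype F] [DecidableEq F]
    [Algebra (ZMod p) F] (hF : Fintype.card F = p ^ 2) :
    ¬ (p : ℤ) ∣ cs (ZMod p) (fp S) ^ 2 + cs F ((fp S).map (algebraMap (ZMod p) F)) := by
  intro hdvd
  obtain ⟨α, hα, hpow⟩ := weil (by omega) S hS
  have h1 := hpow 1 one_pos (ZMod p) (by rw [ZMod.card, pow_one])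
  have h2 := hpow 2 two_pos F hF
  rw [Algebra.algebraMap_self, Polynomial.map_id] at h1
  set T1 : ℤ := cs (ZMod p) (fp S) with hT1
  set T2 : ℤ := cs F ((fp S).map (algebraMap (ZMod p) F)) with hT2
  have hp0 : (0 : ℝ) < p := by exact_mod_cast (Fact.out : p.Prime).pos
  have harch := arch α (p := p) hα (a := ((-T1 : ℤ) : ℝ)) (s := ((-T2 : ℤ) : ℝ)) (by
      push_cast
      rw [h1, neg_neg]
      simp) (by
      push_cast
      rw [h2, neg_neg])
  have hc1 : (16 : ℤ) ∣ T1 + 4 := sum_five_mod (by rw [ZMod.card]; exact hp) S hS hsq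
  have hc2 : (16 : ℤ) ∣ T2 + 4 := by
    rw [hT2, map_fp]
    apply sum_five_mod
    · rw [hF, Nat.pow_mod, hp]
    · rw [Finset.card_image_of_injective _ (algebraMap (ZMod p) F).injective, hS]
    · intro c hc d hd
      obtain ⟨c, hc', rfl⟩ := Finset.mem_image.1 hc
      obtain ⟨d, hd', rfl⟩ := Finset.mem_image.1 hd
      rw [← map_sub]
      exact (hsq c hc' d hd').map _
  obtain ⟨m, hm⟩ := hdvd
  obtain ⟨u, hu⟩ := hc1
  obtain ⟨v, hv⟩ := hc2
  have hM : ((((-T1 : ℤ) : ℝ)) ^ 2 - ((-T2 : ℤ) : ℝ)) = p * m := by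
    have : ((T1 ^ 2 + T2 : ℤ) : ℝ) = ((p * m : ℤ) : ℝ) := by rw [hm]
    push_cast at this ⊢
    linarith
  rw [hM] at harch
  obtain ⟨hA, hB, hC, hD⟩ := harch
  have hm12 : (m : ℝ) ≤ 12 := by
    by_contra hcon
    push Not at hcon
    nlinarith
  have hm4 : -4 ≤ (m : ℝ) := by
    by_contra hcon
    push Not at hcon
    nlinarith
  have hm12' : m ≤ 12 := by exact_mod_cast hm12
  have hm4' : -4 ≤ m := by exact_mod_cast hm4
  -- `m ≡ 12` modulo `16`
  have hmod : (16 : ℤ) ∣ m - 12 := by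
    obtain ⟨w, hw⟩ : ∃ w : ℤ, (p : ℤ) = 1 + 16 * w := ⟨p / 16, by omega⟩
    have e1 : T1 = 16 * u - 4 := by linarith
    have e2 : T2 = 16 * v - 4 := by linarith
    rw [e1, e2, hw] at hm
    refine ⟨16 * u ^ 2 - 8 * u + v - w * m, ?_⟩
    linarith
  have hcases : m = 12 ∨ m = -4 := by omega
  rcases hcases with rfl | rfl
  · have h3 := hC (by push_cast; ring)
    have h4 : T1 ^ 2 = 16 * (p : ℤ) := by
      have : ((T1 ^ 2 : ℤ) : ℝ) = ((16 * p : ℤ) : ℝ) := by
        push_cast at h3 ⊢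
        linarith
      exact_mod_cast this
    have hpp : Prime (p : ℤ) := Nat.prime_iff_prime_int.1 Fact.out
    have h5 : (p : ℤ) ∣ T1 := hpp.dvd_of_dvd_pow (by rw [h4]; exact Dvd.intro_left _ rfl)
    obtain ⟨t, ht⟩ := h5
    have hpne : (p : ℤ) ≠ 0 := hpp.ne_zero
    have h6 : (p : ℤ) * t ^ 2 = 16 := by
      apply mul_left_cancel₀ hpne
      rw [ht] at h4
      linarith
    have h7 : (p : ℤ) ∣ 16 := ⟨t ^ 2, h6.symm⟩
    have h8 : p ∣ 16 := by exact_mod_cast h7
    have h9 := Nat.le_of_dvd (by norm_num) h8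
    have h10 : 1 < p := (Fact.out : p.Prime).one_lt
    omega
  · have h3 := hD (by push_cast; ring)
    have h4 : T1 = 0 := by
      have : ((-T1 : ℤ) : ℝ) = ((0 : ℤ) : ℝ) := by rw [h3]; simp
      have h5 : (-T1 : ℤ) = 0 := by exact_mod_cast this
      omega
    omega

theorem two_ne_zero_zmod {p : ℕ} [Fact p.Prime] (hp : p % 16 = 1) : (2 : ZMod p) ≠ 0 := by
  intro h
  have h3 : ((2 : ℕ) : ZMod p) = 0 := by exact_mod_cast h
  rw [CharP.cast_eq_zero_iff (ZMod p) p] at h3
  have h4 := (Nat.prime_dvd_prime_iff_eq (Fact.out : p.Prime) Nat.prime_two).1 h3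
  omega

/-- There is a field with `p ^ 2` elements. -/
theorem exists_field (p : ℕ) [Fact p.Prime] : ∃ (F : Type) (_ : Field F) (_ : Fintype F)
    (_ : DecidableEq F) (_ : Algebra (ZMod p) F), Fintype.card F = p ^ 2 := by
  classical
  let _ : Fintype (GaloisField p 2) := Fintype.ofFinite _
  refine ⟨GaloisField p 2, inferInstance, inferInstance, inferInstance, inferInstance, ?_⟩
  rw [← Nat.card_eq_fintype_card]
  exact GaloisField.card p 2 two_ne_zero

theorem det_five {p : ℕ} [Fact p.Prime] (hp : p % 16 = 1) (S : Finset (ZMod p)) (hS : S.card = 5)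
    (hsq : ∀ c ∈ S, ∀ d ∈ S, IsSquare (c - d)) : (cmMatrix p 2 (fp S)).det ≠ 0 := by
  classical
  have hp2 : p ≠ 2 := by
    rintro rfl
    norm_num at hp
  have hp1 : 1 < p := (Fact.out : p.Prime).one_lt
  obtain ⟨F, _, _, _, _, hF⟩ := exists_field p
  intro hdet
  apply not_dvd hp S hS hsq F hF
  rw [← ZMod.intCast_zmod_eq_zero_iff_dvd]
  push_cast
  have hdeg : (fp S).natDegree ≤ 6 := by
    rw [natDegree_fp]
    omega
  rw [trace_one hp2 (fp S) hdeg _ rfl, trace_two hp2 (fp S) hdeg _ rfl F hF]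
  rw [Matrix.det_fin_two] at hdet
  simp only [cmMatrix, Fin.val_zero, Fin.val_one, zero_add, one_mul] at hdet
  have e3 : ((fp S) ^ ((p - 1) / 2)).coeff (3 * p - 3) = 0 := by
    apply coeff_eq_zero_of_natDegree_lt
    rw [natDegree_pow, natDegree_fp, hS]
    omega
  rw [e3]
  have e4 : (1 + 1) * p - 1 = 2 * p - 1 := by omega
  have e5 : (1 + 1) * p - (1 + 1) = 2 * p - 2 := by omega
  have e6 : p - (1 + 1) = p - 2 := by omega
  rw [e4, e5, e6] at hdet
  linear_combination 2 * hdet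

theorem det_six {p : ℕ} [Fact p.Prime] (hp : p % 16 = 1) (S : Finset (ZMod p)) (hS : S.card = 6)
    (hsq : ∀ c ∈ S, ∀ d ∈ S, IsSquare (c - d)) : (cmMatrix p 2 (fp S)).det ≠ 0 := by
  classical
  have hp2 : p ≠ 2 := by
    rintro rfl
    norm_num at hp
  have hp1 : 1 < p := (Fact.out : p.Prime).one_lt
  obtain ⟨F, _, _, _, _, hF⟩ := exists_field p
  obtain ⟨d, hd⟩ := Finset.card_pos.1 (by omega : 0 < S.card)
  obtain ⟨S', hS', rfl⟩ : ∃ S', d ∉ S' ∧ S = insert d S' :=
    ⟨S.erase d, Finset.notMem_erase d S, (Finset.insert_erase hd).symm⟩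
  have hc5 : S'.card = 5 := by
    rw [Finset.card_insert_of_notMem hS'] at hS
    omega
  have hdsq : ∀ c ∈ S', IsSquare (c - d) := fun c hc =>
    hsq c (Finset.mem_insert_of_mem hc) d (Finset.mem_insert_self _ _)
  have hmone : IsSquare (-1 : ZMod p) := isSquare_neg_one (by rw [ZMod.card]; exact hp)
  have hm1 := sum_mob d S' hS' (by rw [hc5]; decide) hdsq hmone
  have hm2 : cs F ((fp (insert d S')).map (algebraMap (ZMod p) F)) =
      cs F ((fp (mob d S')).map (algebraMap (ZMod p) F)) - 1 := by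
    rw [map_fp, map_fp, Finset.image_insert]
    have hinj := (algebraMap (ZMod p) F).injective
    have h1 : (mob d S').image (algebraMap (ZMod p) F) =
        mob (algebraMap (ZMod p) F d) (S'.image (algebraMap (ZMod p) F)) := by
      unfold mob
      rw [Finset.image_image, Finset.image_image]
      apply Finset.image_congr
      intro c _
      simp
    rw [h1]
    apply sum_mob
    · intro h
      obtain ⟨c, hc, hcd⟩ := Finset.mem_image.1 h
      rw [hinj hcd] at hc
      exact hS' hc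
    · rw [Finset.card_image_of_injective _ hinj, hc5]
      decide
    · intro c hc
      obtain ⟨c, hc', rfl⟩ := Finset.mem_image.1 hc
      rw [← map_sub]
      exact (hdsq c hc').map _
    · have := hmone.map (algebraMap (ZMod p) F)
      simpa using this
  intro hdet
  apply not_dvd hp (mob d S') (by rw [card_mob, hc5]) (mob_sq hsq) F hF
  rw [← ZMod.intCast_zmod_eq_zero_iff_dvd]
  have hdeg : (fp (insert d S')).natDegree ≤ 6 := by
    rw [natDegree_fp]
    omega
  have t1 := trace_one hp2 (fp (insert d S')) hdeg _ rfl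
  have t2 := trace_two hp2 (fp (insert d S')) hdeg _ rfl F hF
  rw [hm1] at t1
  rw [hm2] at t2
  push_cast at t1 t2 ⊢
  rw [Matrix.det_fin_two] at hdet
  simp only [cmMatrix, Fin.val_zero, Fin.val_one, zero_add, one_mul] at hdet
  have e3 : ((fp (insert d S')) ^ ((p - 1) / 2)).coeff (3 * p - 3) = 1 := by
    have h1 : ((fp (insert d S')) ^ ((p - 1) / 2)).natDegree = 3 * p - 3 := by
      rw [natDegree_pow, natDegree_fp, hS]
      omega
    rw [← h1, coeff_natDegree]
    exact ((fp_monic _).pow _).leadingCoeff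
  rw [e3] at t1 t2
  have e4 : (1 + 1) * p - 1 = 2 * p - 1 := by omega
  have e5 : (1 + 1) * p - (1 + 1) = 2 * p - 2 := by omega
  have e6 : p - (1 + 1) = p - 2 := by omega
  rw [e4, e5, e6] at hdet
  generalize ((fp (insert d S')) ^ ((p - 1) / 2)).coeff (p - 1) = A at *
  generalize ((fp (insert d S')) ^ ((p - 1) / 2)).coeff (2 * p - 2) = B at *
  generalize ((fp (insert d S')) ^ ((p - 1) / 2)).coeff (p - 2) = C at *
  generalize ((fp (insert d S')) ^ ((p - 1) / 2)).coeff (2 * p - 1) = D at *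
  have t1' : ((cs (ZMod p) (fp (mob d S')) : ℤ) : ZMod p) = -(A + B) := by linear_combination t1
  have t2' : ((cs F ((fp (mob d S')).map (algebraMap (ZMod p) F)) : ℤ) : ZMod p) =
      -(A ^ 2 + 2 * C * D + B ^ 2) := by linear_combination t2
  rw [t1', t2']
  linear_combination 2 * hdet

end MPadc574G
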