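import Pool.Agent.Lib.MP_adc574_ag_G2.Basic

/-!
# JOB RatA: the coefficients of the `L`-polynomial vanish from degree `|S|` on
-/

set_option autoImplicit false

namespace MPadc574G

open Polynomial Finset

theorem As_zero {K : Type*} [Field K] [Fintype K] [DecidableEq K] (S : Finset K) : As S 0 = 1 := by
  have h : mon K 0 = {1} := by
    ext g
    rw [mem_mon, Finset.mem_singleton]
    constructor
    · rintro ⟨h1, h2⟩
      exact h1.natDegree_eq_zero.1 h2
    · rintro rfl
      exact ⟨monic_one, natDegree_one⟩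
  unfold As
  rw [h, Finset.sum_singleton, ch_one]

theorem As_eq_zero {K : Type*} [Field K] [Fintype K] [DecidableEq K] (hK : ringChar K ≠ 2)
    (S : Finset K) (hS : S.Nonempty) {n : ℕ} (hn : S.card ≤ n) : As S n = 0 := by
  obtain ⟨c₀, hc₀⟩ := hS
  -- the Lagrange polynomial
  set a : K := ∏ c ∈ S.erase c₀, (c₀ - c) with ha
  have ha0 : a ≠ 0 := by
    rw [ha]
    refine Finset.prod_ne_zero_iff.2 fun c hc => ?_
    exact sub_ne_zero.2 (Finset.ne_of_mem_erase hc).symm
  set l : K[X] := C a⁻¹ * fp (S.erase c₀) with hl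
  have hl0 : l.eval c₀ = 1 := by
    rw [hl, eval_mul, eval_C, eval_fp]
    exact inv_mul_cancel₀ ha0
  have hl1 : ∀ c ∈ S.erase c₀, l.eval c = 0 := by
    intro c hc
    rw [hl, eval_mul, eval_fp, Finset.prod_eq_zero hc (sub_self c), mul_zero]
  have hdeg : ∀ t : K, (C t * l).degree < n := by
    intro t
    have h1 : (C t * l).natDegree ≤ (S.erase c₀).card := by
      refine (natDegree_C_mul_le _ _).trans ?_
      rw [hl]
      refine (natDegree_C_mul_le _ _).trans ?_
      rw [natDegree_fp]
    have h2 : (S.erase c₀).card < n := by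
      rw [Finset.card_erase_of_mem hc₀]
      have := Finset.card_pos.2 ⟨c₀, hc₀⟩
      omega
    refine lt_of_le_of_lt degree_le_natDegree ?_
    exact_mod_cast lt_of_le_of_lt h1 h2
  have hmem : ∀ (t : K) (g : K[X]), g ∈ mon K n → g + C t * l ∈ mon K n := by
    intro t g hg
    rw [mem_mon] at hg ⊢
    have hgd : g.degree = n := by rw [degree_eq_natDegree hg.1.ne_zero, hg.2]
    have hlt : (C t * l).degree < g.degree := by rw [hgd]; exact hdeg t
    refine ⟨hg.1.add_of_left hlt, ?_⟩
    rw [natDegree_add_eq_left_of_degree_lt hlt, hg.2]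
  have hshift : ∀ t : K, ∑ g ∈ mon K n, ch S (g + C t * l) = As S n := by
    intro t
    refine Finset.sum_nbij' (fun g => g + C t * l) (fun g => g + C (-t) * l)
      (fun g hg => hmem t g hg) (fun g hg => hmem (-t) g hg) ?_ ?_ ?_
    · intro g _
      simp only [C_neg]
      ring
    · intro g _
      simp only [C_neg]
      ring
    · intro g _
      rfl
  have hch : ∀ (t : K) (g : K[X]), ch S (g + C t * l)
      = (∏ c ∈ S.erase c₀, quadraticChar K (g.eval c)) * quadraticChar K (g.eval c₀ + t) := by
    intro t g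
    unfold ch
    rw [← Finset.prod_erase_mul S _ hc₀]
    congr 1
    · refine Finset.prod_congr rfl fun c hc => ?_
      rw [eval_add, eval_mul, hl1 c hc, mul_zero, add_zero]
    · rw [eval_add, eval_mul, hl0, mul_one, eval_C]
  have hsum : (Fintype.card K : ℤ) * As S n = 0 := by
    have e1 : (Fintype.card K : ℤ) * As S n = ∑ _t : K, As S n := by
      rw [Finset.sum_const, Finset.card_univ, nsmul_eq_mul]
    rw [e1]
    have e2 : ∑ _t : K, As S n = ∑ t : K, ∑ g ∈ mon K n, ch S (g + C t * l) :=
      Finset.sum_congr rfl fun t _ => (hshift t).symm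
    rw [e2, Finset.sum_comm]
    refine Finset.sum_eq_zero fun g _ => ?_
    simp only [hch]
    rw [← Finset.mul_sum]
    have e3 : ∑ t : K, quadraticChar K (g.eval c₀ + t) = ∑ t : K, quadraticChar K t :=
      Fintype.sum_equiv (Equiv.addLeft (g.eval c₀)) _ _ (fun t => rfl)
    rw [e3, quadraticChar_sum_zero hK, mul_zero]
  have hcard : (Fintype.card K : ℤ) ≠ 0 := by
    exact_mod_cast Fintype.card_ne_zero
  exact (mul_eq_zero.1 hsum).resolve_left hcard

end MPadc574G
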