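import Pool.Agent.Lib.MP_adc574_ag_G2.Basic

/-!
# JOB RatB: the recursion between coefficients and power sums

For `g` monic of degree `n`, `n = ∑_{d, k, d k ≤ n} ∑_{P ∈ irr K d, P ^ k ∣ g} d` (the degree is the sum over the
multiset of normalized factors, and the multiplicity of `P` is the number of `k ≥ 1` with `P ^ k ∣ g`;
`UniqueFactorizationMonoid`, `multiplicity` / `emultiplicity`, `Polynomial.Monic.irreducible...`). Multiply
by `ch S g`, sum over `g ∈ mon K n` and write `g = P ^ k * g'` with `g' ∈ mon K (n - d k)` (a bijection between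
`{g ∈ mon K n | P ^ k ∣ g}` and `mon K (n - d k)`), `ch S g = ch S P ^ k * ch S g'`. Group by `j = d k`.
-/

set_option autoImplicit false

namespace MPadc574G

open Polynomial Finset

/-- Counting the powers of `P` that divide `g`. -/
private theorem ratB_count {K : Type*} [Field K] [Fintype K] [DecidableEq K] {g P : K[X]} (hg : g ≠ 0)
    (hP : Irreducible P) (hPm : P.Monic) (N : ℕ) (hN : g.natDegree < (N + 1) * P.natDegree) : by
      classical
      exact (∑ k ∈ Icc 1 N, if P ^ k ∣ g then (P.natDegree : ℤ) else 0) =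
        ((UniqueFactorizationMonoid.normalizedFactors g).count P : ℤ) * P.natDegree := by
  classical
  have hdvd : ∀ k : ℕ, P ^ k ∣ g ↔ k ≤ (UniqueFactorizationMonoid.normalizedFactors g).count P := by
    intro k
    rw [pow_dvd_iff_le_emultiplicity,
      UniqueFactorizationMonoid.emultiplicity_eq_count_normalizedFactors hP hg,
      hPm.normalize_eq_self]
    norm_cast
  set c := (UniqueFactorizationMonoid.normalizedFactors g).count P with hc
  have hcN : c ≤ N := by
    have h1 : P ^ c ∣ g := (hdvd c).2 le_rfl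
    have h2 := natDegree_le_of_dvd h1 hg
    rw [natDegree_pow] at h2
    by_contra hcon
    push Not at hcon
    have h3 : (N + 1) * P.natDegree ≤ c * P.natDegree := Nat.mul_le_mul_right _ hcon
    omega
  have hpos : 0 < P.natDegree := hP.natDegree_pos
  rw [← Finset.sum_filter, Finset.sum_const, nsmul_eq_mul]
  congr 2
  have hfe : (Icc 1 N).filter (fun k => P ^ k ∣ g) = Icc 1 c := by
    ext k
    rw [mem_filter, mem_Icc, mem_Icc, hdvd]
    omega
  rw [hfe, Nat.card_Icc]
  omega

private theorem ratB_sum_reorg {M : Type*} [AddCommMonoid M] (n : ℕ) (f : ℕ → ℕ → M) :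
    (∑ j ∈ Icc 1 n, ∑ d ∈ j.divisors, f d (j / d)) =
      ∑ d ∈ Icc 1 n, ∑ k ∈ Icc 1 (n / d), f d k := by
  rw [Finset.sum_sigma', Finset.sum_sigma']
  refine Finset.sum_bij' (fun x _ => ⟨x.2, x.1 / x.2⟩) (fun y _ => ⟨y.1 * y.2, y.1⟩) ?_ ?_ ?_ ?_ ?_
  · rintro ⟨j, d⟩ h
    simp only [mem_sigma, mem_Icc, Nat.mem_divisors] at h ⊢
    obtain ⟨⟨h1, h2⟩, h3, h4⟩ := h
    have hd : 0 < d := Nat.pos_of_dvd_of_pos h3 h1
    have hdj : d ≤ j := Nat.le_of_dvd h1 h3
    refine ⟨⟨hd, hdj.trans h2⟩, Nat.div_pos hdj hd, Nat.div_le_div_right h2⟩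
  · rintro ⟨d, k⟩ h
    simp only [mem_sigma, mem_Icc, Nat.mem_divisors] at h ⊢
    obtain ⟨⟨h1, h2⟩, h3, h4⟩ := h
    have hk : d * k ≤ n := by
      have := (Nat.le_div_iff_mul_le h1).1 h4
      rwa [mul_comm]
    refine ⟨⟨Nat.mul_pos h1 h3, hk⟩, dvd_mul_right _ _, (Nat.mul_pos h1 h3).ne'⟩
  · rintro ⟨j, d⟩ h
    simp only [mem_sigma, mem_Icc, Nat.mem_divisors] at h ⊢
    obtain ⟨⟨h1, h2⟩, h3, h4⟩ := h
    simp [Nat.mul_div_cancel' h3]
  · rintro ⟨d, k⟩ h
    simp only [mem_sigma, mem_Icc] at h ⊢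
    obtain ⟨⟨h1, h2⟩, h3, h4⟩ := h
    simp [Nat.mul_div_cancel_left k h1]
  · rintro ⟨j, d⟩ h
    rfl

/-- the degree is the sum over prime powers dividing -/
theorem degree_eq {K : Type*} [Field K] [Fintype K] [DecidableEq K] {n : ℕ} {g : K[X]}
    (hg : g ∈ mon K n) : by
      classical
      exact (n : ℤ) = ∑ j ∈ Icc 1 n, ∑ d ∈ j.divisors, ∑ P ∈ irr K d,
        if P ^ (j / d) ∣ g then (d : ℤ) else 0 := by
  classical
  obtain ⟨hgm, hgn⟩ := mem_mon.1 hg
  have hg0 : g ≠ 0 := hgm.ne_zero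
  have h1 := ratB_sum_reorg n (fun d k => ∑ P ∈ irr K d, if P ^ k ∣ g then (d : ℤ) else 0)
  refine Eq.trans ?_ h1.symm
  have h2 : ∀ d ∈ Icc 1 n, (∑ k ∈ Icc 1 (n / d), ∑ P ∈ irr K d,
      if P ^ k ∣ g then (d : ℤ) else 0) =
      ∑ P ∈ irr K d, ((UniqueFactorizationMonoid.normalizedFactors g).count P : ℤ) *
        P.natDegree := by
    intro d hd
    rw [Finset.sum_comm]
    apply Finset.sum_congr rfl
    intro P hP
    obtain ⟨hPm, hPd, hPi⟩ := mem_irr.1 hP
    have hd1 : 1 ≤ d := (mem_Icc.1 hd).1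
    have := ratB_count hg0 hPi hPm (n / d) (by
      rw [hgn, hPd, mul_comm]
      exact Nat.lt_mul_div_succ n hd1)
    rw [← this]
    apply Finset.sum_congr rfl
    intro k _
    rw [hPd]
  rw [Finset.sum_congr rfl h2]
  -- the degree as a sum over the normalized factors
  set s := UniqueFactorizationMonoid.normalizedFactors g with hs
  have hsm : ∀ f ∈ s, Monic f := by
    intro f hf
    have hn : normalize f = f := UniqueFactorizationMonoid.normalize_normalized_factor f hf
    have hf0 : f ≠ 0 :=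
      (UniqueFactorizationMonoid.irreducible_of_normalized_factor f hf).ne_zero
    rw [← hn]
    exact monic_normalize hf0
  have hprod : s.prod = g := by
    rw [hs, UniqueFactorizationMonoid.prod_normalizedFactors_eq hg0, hgm.normalize_eq_self]
  have hdeg : g.natDegree = (s.map natDegree).sum := by
    conv_lhs => rw [← hprod]
    exact natDegree_multiset_prod_of_monic s hsm
  have hdeg2 : (n : ℤ) = ∑ P ∈ s.toFinset, (s.count P : ℤ) * P.natDegree := by
    rw [← hgn, hdeg, Finset.sum_multiset_map_count]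
    push_cast
    simp
  rw [hdeg2]
  -- now regroup by degree
  have hmaps : ∀ P ∈ s.toFinset, P.natDegree ∈ Icc 1 n := by
    intro P hP
    rw [Multiset.mem_toFinset] at hP
    have hirr := UniqueFactorizationMonoid.irreducible_of_normalized_factor P hP
    have hdvd : P ∣ g := UniqueFactorizationMonoid.dvd_of_mem_normalizedFactors hP
    rw [mem_Icc]
    exact ⟨hirr.natDegree_pos, hgn ▸ natDegree_le_of_dvd hdvd hg0⟩
  rw [← Finset.sum_fiberwise_of_maps_to hmaps]
  apply Finset.sum_congr rfl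
  intro d _
  apply Finset.sum_subset
  · intro P hP
    rw [mem_filter, Multiset.mem_toFinset] at hP
    rw [mem_irr]
    exact ⟨hsm P hP.1, hP.2, UniqueFactorizationMonoid.irreducible_of_normalized_factor P hP.1⟩
  · intro P hP hPn
    rw [mem_filter, Multiset.mem_toFinset, not_and] at hPn
    have : P ∉ s := fun h => hPn h (mem_irr.1 hP).2.1
    rw [Multiset.count_eq_zero.2 this]
    simp

/-- the sum over the multiples of a monic polynomial -/
theorem sum_mul {K : Type*} [Field K] [Fintype K] [DecidableEq K] (S : Finset K) {n m : ℕ}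
    {R : K[X]} (hR : R ∈ mon K m) (hmn : m ≤ n) : by
      classical
      exact ∑ g ∈ mon K n, (if R ∣ g then ch S g else 0) = ch S R * As S (n - m) := by
  classical
  obtain ⟨hRm, hRn⟩ := mem_mon.1 hR
  rw [← Finset.sum_filter, As, Finset.mul_sum]
  symm
  refine Finset.sum_bij (fun h _ => R * h) ?_ ?_ ?_ ?_
  · intro h hh
    obtain ⟨hhm, hhn⟩ := mem_mon.1 hh
    rw [mem_filter, mem_mon]
    refine ⟨⟨hRm.mul hhm, ?_⟩, dvd_mul_right _ _⟩
    rw [hRm.natDegree_mul hhm, hRn, hhn]
    omega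
  · intro a _ b _ hab
    exact mul_left_cancel₀ hRm.ne_zero hab
  · intro g hg
    rw [mem_filter, mem_mon] at hg
    obtain ⟨⟨hgm, hgn⟩, h, rfl⟩ := hg
    have hhm : h.Monic := hRm.of_mul_monic_left hgm
    refine ⟨h, ?_, rfl⟩
    rw [mem_mon]
    refine ⟨hhm, ?_⟩
    rw [hRm.natDegree_mul hhm, hRn] at hgn
    omega
  · intro h _
    rw [ch_mul]

theorem recursion {K : Type*} [Field K] [Fintype K] [DecidableEq K] (S : Finset K) (n : ℕ) :
    (n : ℤ) * As S n = ∑ j ∈ Icc 1 n, Lam S j * As S (n - j) := by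
  classical
  have h1 : (n : ℤ) * As S n = ∑ g ∈ mon K n, ∑ j ∈ Icc 1 n, ∑ d ∈ j.divisors,
      ∑ P ∈ irr K d, (d : ℤ) * (if P ^ (j / d) ∣ g then ch S g else 0) := by
    rw [As, Finset.mul_sum]
    apply Finset.sum_congr rfl
    intro g hg
    rw [degree_eq hg, Finset.sum_mul]
    apply Finset.sum_congr rfl
    intro j _
    rw [Finset.sum_mul]
    apply Finset.sum_congr rfl
    intro d _
    rw [Finset.sum_mul]
    apply Finset.sum_congr rfl
    intro P _
    split_ifs <;> simp
  rw [h1, Finset.sum_comm]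
  apply Finset.sum_congr rfl
  intro j hj
  rw [mem_Icc] at hj
  rw [Finset.sum_comm, Lam, Finset.sum_mul]
  apply Finset.sum_congr rfl
  intro d hd
  rw [Nat.mem_divisors] at hd
  rw [Finset.sum_comm, Finset.sum_mul]
  apply Finset.sum_congr rfl
  intro P hP
  obtain ⟨hPm, hPd, hPi⟩ := mem_irr.1 hP
  rw [← Finset.mul_sum, sum_mul S (m := j) ?_ hj.2, ch_pow]
  · ring
  · rw [mem_mon]
    refine ⟨hPm.pow _, ?_⟩
    rw [hPm.natDegree_pow, hPd]
    exact Nat.div_mul_cancel hd.1

end MPadc574G
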