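import Pool.Agent.Lib.MP_adc574_ag_G2.Basic

/-!
# JOB RatC: the power sums are character sums over the extensions

`F / K` is an extension of degree `j` of finite fields. Group the `x ∈ F` by their minimal polynomial `P` over `K`
(monic, irreducible, of degree `d ∣ j`); conversely every `P ∈ irr K d`, `d ∣ j`, divides `X ^ (q ^ j) - X`
(`FiniteField.natDegree_dvd_iff_dvd_X_pow_card_pow_sub_X`, in `Mathlib/FieldTheory/Finite/Extension.lean`), so has
exactly `d` different roots in `F`. For `x` with minimal polynomial `P` and `c ∈ K`: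
the norm of `c - x` is `P(c) ^ (j / d)` (characteristic polynomial = power of the minimal polynomial), and
`quadraticChar F y = quadraticChar K (norm y)` (because `y ^ ((q ^ j - 1) / 2) = (y ^ ((q ^ j - 1) / (q - 1))) ^ ((q - 1) / 2)`,
`FiniteField.algebraMap_norm_eq_pow` or similar, `quadraticChar_eq_pow_of_char_ne_two'`, and
both sides are in `{0, 1, -1}`, distinct in characteristic `≠ 2`). `x - c = - (c - x)` and `-1` is a square in `K`.
-/

set_option autoImplicit false

namespace MPadc574G

open Polynomial Finset

private theorem ratC_mem {F : Type*} [Field F] [Fintype F] [DecidableEq F] (a : F) :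
    quadraticChar F a ∈ ({0, 1, -1} : Set ℤ) := by
  by_cases h : a = 0
  · subst h
    simp
  · rcases quadraticChar_dichotomy h with h | h <;> simp [h]

theorem quadraticChar_norm {K F : Type*} [Field K] [Fintype K] [DecidableEq K] [Field F]
    [Fintype F] [DecidableEq F] [Algebra K F] (hK : ringChar K ≠ 2) (y : F) :
    quadraticChar F y = quadraticChar K (Algebra.norm K y) := by
  have hF : ringChar F ≠ 2 := by
    rw [← Algebra.ringChar_eq K F]
    exact hK
  apply Int.cast_injOn_of_ringChar_ne_two hF (ratC_mem _) (ratC_mem _)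
  have h1 := quadraticChar_eq_pow_of_char_ne_two' hF y
  have h2 := quadraticChar_eq_pow_of_char_ne_two' hK (Algebra.norm K y)
  have h3 : ((quadraticChar K (Algebra.norm K y) : ℤ) : F) =
      algebraMap K F ((quadraticChar K (Algebra.norm K y) : ℤ) : K) := by
    rw [map_intCast]
  rw [h3, h2, map_pow, FiniteField.algebraMap_norm_eq_pow, ← pow_mul, h1]
  congr 1
  rw [Nat.card_eq_fintype_card, Nat.card_eq_fintype_card]
  have hKodd : Fintype.card K % 2 = 1 := FiniteField.odd_card_of_char_ne_two hK
  have hFodd : Fintype.card F % 2 = 1 := FiniteField.odd_card_of_char_ne_two hF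
  have hdvd : (Fintype.card K - 1) ∣ (Fintype.card F - 1) := by
    rw [Module.card_eq_pow_finrank (K := K) (V := F)]
    exact Nat.sub_one_dvd_pow_sub_one _ _
  have hK1 : 1 < Fintype.card K := Fintype.one_lt_card
  obtain ⟨r, hr⟩ := hdvd
  rw [hr, Nat.mul_div_cancel_left r (by omega)]
  obtain ⟨s, hs⟩ : ∃ s, Fintype.card K = 2 * s + 1 := ⟨Fintype.card K / 2, by omega⟩
  have h4 : Fintype.card F = 2 * (s * r) + 1 := by
    have h5 : Fintype.card K - 1 = 2 * s := by omega
    rw [h5] at hr
    have : 1 < Fintype.card F := Fintype.one_lt_card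
    have h6 : 2 * s * r = 2 * (s * r) := by ring
    omega
  have h5 : Fintype.card F / 2 = s * r := by omega
  have h6 : Fintype.card K / 2 = s := by omega
  rw [h5, h6, mul_comm]

private theorem ratC_finrank {K F : Type*} [Field K] [Fintype K] [Field F] [Fintype F]
    [Algebra K F] {j : ℕ} (hF : Fintype.card F = Fintype.card K ^ j) : Module.finrank K F = j := by
  have h1 := Module.card_eq_pow_finrank (K := K) (V := F)
  rw [hF] at h1
  exact (Nat.pow_right_injective (Fintype.one_lt_card (α := K)) h1).symm

/-- the number of elements of `F` with given minimal polynomial -/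
theorem card_minpoly {K F : Type*} [Field K] [Fintype K] [Field F] [Fintype F] [DecidableEq F]
    [Algebra K F] {j d : ℕ} (hF : Fintype.card F = Fintype.card K ^ j) (hj : 0 < j) (hd : d ∣ j)
    {P : K[X]} (hP : P ∈ irr K d) : by
      classical
      exact (univ.filter (fun x : F => minpoly K x = P)).card = d := by
  classical
  obtain ⟨hPm, hPd, hPi⟩ := mem_irr.1 hP
  have hdvd : P ∣ X ^ (Nat.card K) ^ j - X :=
    (Irreducible.natDegree_dvd_iff_dvd_X_pow_card_pow_sub_X hPi).1 (hPd ▸ hd)
  have hsplit : (P.map (algebraMap K F)).Splits := by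
    have h1 : P.map (algebraMap K F) ∣ (X ^ Fintype.card F - X : F[X]) := by
      have := Polynomial.map_dvd (algebraMap K F) hdvd
      rw [Nat.card_eq_fintype_card, ← hF] at this
      simpa using this
    have h2 : (X ^ Fintype.card F - X : F[X]).Splits := by
      rw [splits_iff_card_roots, FiniteField.roots_X_pow_card_sub_X,
        FiniteField.X_pow_card_sub_X_natDegree_eq F Fintype.one_lt_card]
      rfl
    exact h2.of_dvd (FiniteField.X_pow_card_sub_X_ne_zero F Fintype.one_lt_card) h1
  have hsep : P.Separable := PerfectField.separable_of_irreducible hPi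
  have hc := card_rootSet_eq_natDegree (K := F) hsep hsplit
  rw [hPd] at hc
  rw [← hc, ← Set.toFinset_card]
  congr 1
  ext x
  rw [mem_filter, Set.mem_toFinset, mem_rootSet']
  constructor
  · rintro ⟨-, h⟩
    refine ⟨?_, ?_⟩
    · exact (Polynomial.map_ne_zero_iff (algebraMap K F).injective).2 hPm.ne_zero
    · rw [← h]
      exact minpoly.aeval K x
  · rintro ⟨-, h⟩
    exact ⟨mem_univ _, (minpoly.eq_of_irreducible_of_monic hPi h hPm).symm⟩

theorem norm_sub {K F : Type*} [Field K] [Fintype K] [Field F] [Fintype F]
    [Algebra K F] {j : ℕ} (hF : Fintype.card F = Fintype.card K ^ j) (x : F) (c : K) :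
    Algebra.norm K (algebraMap K F c - x) =
      (minpoly K x).eval c ^ (j / (minpoly K x).natDegree) := by
  classical
  have hx : IsIntegral K x := Algebra.IsIntegral.isIntegral x
  have hfr := ratC_finrank hF
  let E := IntermediateField.adjoin K ({x} : Set F)
  have hE : Module.finrank K E = (minpoly K x).natDegree :=
    IntermediateField.adjoin.finrank hx
  have hEF : Module.finrank E F = j / (minpoly K x).natDegree := by
    rw [← hfr, ← Module.finrank_mul_finrank K E F, hE]
    rw [Nat.mul_div_cancel_left _ (minpoly.natDegree_pos hx)]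
  let pb := IntermediateField.adjoin.powerBasis hx
  have hgen : pb.gen = IntermediateField.AdjoinSimple.gen K x :=
    IntermediateField.adjoin.powerBasis_gen hx
  have h1 : Algebra.norm K (algebraMap K E c - pb.gen) = (minpoly K x).eval c := by
    rw [Algebra.norm_eq_matrix_det pb.basis, map_sub, AlgHom.commutes]
    have h2 := charpoly_leftMulMatrix pb
    have h3 : minpoly K pb.gen = minpoly K x := by
      rw [hgen]
      exact IntermediateField.minpoly_gen K x
    rw [← h3, ← h2, Matrix.eval_charpoly]
    rfl
  rw [← h1, ← hEF]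
  have h4 : algebraMap K F c - x = algebraMap E F (algebraMap K E c - pb.gen) := by
    rw [map_sub, hgen]
    rfl
  rw [h4, ← Algebra.norm_norm (S := E), Algebra.norm_algebraMap, map_pow]

theorem cs_eq_Lam {K F : Type*} [Field K] [Fintype K] [DecidableEq K] [Field F] [Fintype F]
    [DecidableEq F] [Algebra K F] (hK : ringChar K ≠ 2) (hm : IsSquare (-1 : K)) {j : ℕ}
    (hj : 0 < j) (hF : Fintype.card F = Fintype.card K ^ j) (S : Finset K) :
    cs F ((fp S).map (algebraMap K F)) = Lam S j := by
  classical
  have hfr := ratC_finrank hF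
  have hm' : quadraticChar F (-1) = 1 := by
    rw [quadraticChar_one_iff_isSquare (neg_ne_zero.2 one_ne_zero)]
    obtain ⟨r, hr⟩ := hm
    exact ⟨algebraMap K F r, by rw [← map_mul, ← hr, map_neg, map_one]⟩
  have hval : ∀ x : F, quadraticChar F (((fp S).map (algebraMap K F)).eval x) =
      ch S (minpoly K x) ^ (j / (minpoly K x).natDegree) := by
    intro x
    rw [map_fp, eval_fp, Finset.prod_image (fun a _ b _ h => (algebraMap K F).injective h),
      map_prod, ch, ← Finset.prod_pow]
    apply Finset.prod_congr rfl
    intro c _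
    have h1 : x - algebraMap K F c = (-1) * (algebraMap K F c - x) := by ring
    rw [h1, map_mul, hm', one_mul, quadraticChar_norm hK, norm_sub hF, map_pow]
  have hdeg : ∀ x ∈ (univ : Finset F), (minpoly K x).natDegree ∈ j.divisors := by
    intro x _
    rw [Nat.mem_divisors]
    exact ⟨hfr ▸ minpoly.degree_dvd (Algebra.IsIntegral.isIntegral x), hj.ne'⟩
  rw [cs, Finset.sum_congr rfl (fun x _ => hval x), ← Finset.sum_fiberwise_of_maps_to hdeg, Lam]
  apply Finset.sum_congr rfl
  intro d hd
  rw [Nat.mem_divisors] at hd
  have hmem : ∀ x ∈ (univ : Finset F).filter (fun x => (minpoly K x).natDegree = d),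
      minpoly K x ∈ irr K d := by
    intro x hx
    rw [mem_filter] at hx
    rw [mem_irr]
    have hi : IsIntegral K x := Algebra.IsIntegral.isIntegral x
    exact ⟨minpoly.monic hi, hx.2, minpoly.irreducible hi⟩
  rw [← Finset.sum_fiberwise_of_maps_to hmem]
  apply Finset.sum_congr rfl
  intro P hP
  obtain ⟨hPm, hPd, hPi⟩ := mem_irr.1 hP
  have h1 : ((univ : Finset F).filter (fun x => (minpoly K x).natDegree = d)).filter
      (fun x => minpoly K x = P) = univ.filter (fun x : F => minpoly K x = P) := by
    ext x
    simp only [mem_filter, mem_univ, true_and]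
    constructor
    · exact fun h => h.2
    · exact fun h => ⟨by rw [h, hPd], h⟩
  have hcard : (univ.filter (fun x : F => minpoly K x = P)).card = d := by
    convert card_minpoly hF hj hd.1 hP
  rw [h1, Finset.sum_congr rfl (g := fun _ => ch S P ^ (j / d)), Finset.sum_const,
    hcard, nsmul_eq_mul]
  intro x hx
  rw [mem_filter] at hx
  rw [hx.2, hPd]

end MPadc574G
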