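import Mathlib

/-!
# JOB RatD: Newton's identities

Let `P = X ^ 4 + A 1 X ^ 3 + A 2 X ^ 2 + A 3 X + A 4 = ∏ (X - α i)` over `ℂ` (`IsAlgClosed.splits`, four roots with
multiplicity). Then `A n = (-1) ^ n e_n(α)` for all `n` (also for `n > 4`), and Newton's identities
(`MvPolynomial.mul_esymm_eq_sum`, or directly for small `n` and the recurrence
`α i ^ n + A 1 α i ^ (n - 1) + ... + A 4 α i ^ (n - 4) = 0` for `n > 4`) say
`n A n = - ∑_{j=1}^n p_j A (n - j)` with `p_j = ∑ α i ^ j`. As `A 0 = 1`, induction on `j` gives `L j = - p_j`.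
-/

set_option autoImplicit false

namespace MPadc574G

open Finset

private theorem ratD_four (x y z w : ℂ) : ∃ a b c d : ℂ,
    x = -(a + b + c + d) ∧ y = a * b + a * c + a * d + b * c + b * d + c * d ∧
    z = -(a * b * c + a * b * d + a * c * d + b * c * d) ∧ w = a * b * c * d := by
  open Polynomial in
  let P : ℂ[X] := X ^ 4 + C x * X ^ 3 + C y * X ^ 2 + C z * X + C w
  have hP : P = X ^ 4 + C x * X ^ 3 + C y * X ^ 2 + C z * X + C w := rfl
  have hdeg : P.natDegree = 4 := by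
    rw [hP]
    compute_degree!
  have hmon : P.Monic := by
    rw [hP]
    monicity!
  have hsp : P.Splits := IsAlgClosed.splits P
  have hcard : P.roots.card = 4 := by
    rw [← hdeg]
    exact hsp.natDegree_eq_card_roots.symm
  have hprod : P = (P.roots.map (fun a => X - C a)).prod := by
    exact hsp.eq_prod_roots_of_monic hmon
  obtain ⟨a, s, hs, hs3⟩ : ∃ a s, P.roots = a ::ₘ s ∧ Multiset.card s = 3 := by
    obtain ⟨a, ha⟩ := Multiset.card_pos_iff_exists_mem.mp (by rw [hcard]; norm_num : 0 < P.roots.card)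
    obtain ⟨s, hs⟩ := Multiset.exists_cons_of_mem ha
    refine ⟨a, s, hs, ?_⟩
    rw [hs, Multiset.card_cons] at hcard
    omega
  obtain ⟨b, c, d, rfl⟩ := Multiset.card_eq_three.mp hs3
  refine ⟨a, b, c, d, ?_⟩
  rw [hs] at hprod
  simp only [Multiset.map_cons, Multiset.prod_cons, Multiset.insert_eq_cons, Multiset.map_singleton,
    Multiset.prod_singleton] at hprod
  have hexp : P = X ^ 4 + C (-(a + b + c + d)) * X ^ 3 +
      C (a * b + a * c + a * d + b * c + b * d + c * d) * X ^ 2 +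
      C (-(a * b * c + a * b * d + a * c * d + b * c * d)) * X + C (a * b * c * d) := by
    rw [hprod]
    simp only [map_neg, map_add, map_mul]
    ring
  rw [hP] at hexp
  have h3 := congrArg (fun q => q.coeff 3) hexp
  have h2 := congrArg (fun q => q.coeff 2) hexp
  have h1 := congrArg (fun q => q.coeff 1) hexp
  have h0 := congrArg (fun q => q.coeff 0) hexp
  simp only [coeff_add, coeff_X_pow, coeff_C_mul, coeff_C, coeff_X] at h3 h2 h1 h0
  norm_num at h3 h2 h1 h0
  refine ⟨?_, h2, ?_, h0⟩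
  · rw [h3]; ring
  · rw [h1]; ring

theorem newton (A L : ℕ → ℤ) (h0 : A 0 = 1) (h5 : ∀ n, 5 ≤ n → A n = 0)
    (hrec : ∀ n : ℕ, (n : ℤ) * A n = ∑ j ∈ Icc 1 n, L j * A (n - j)) :
    ∃ α : Fin 4 → ℂ, ∀ j, 0 < j → (L j : ℂ) = -∑ i, α i ^ j := by
  obtain ⟨a, b, c, d, hx, hy, hz, hw⟩ := ratD_four (A 1 : ℂ) (A 2 : ℂ) (A 3 : ℂ) (A 4 : ℂ)
  refine ⟨![a, b, c, d], ?_⟩
  have h1 := hrec 1
  have h2 := hrec 2
  have h3 := hrec 3
  have h4 := hrec 4
  have hI2 : Icc 1 2 = ({1, 2} : Finset ℕ) := by decide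
  have hI3 : Icc 1 3 = ({1, 2, 3} : Finset ℕ) := by decide
  have hI4 : Icc 1 4 = ({1, 2, 3, 4} : Finset ℕ) := by decide
  have hI1 : Icc 1 1 = ({1} : Finset ℕ) := by decide
  rw [hI1, Finset.sum_singleton] at h1
  rw [hI2, Finset.sum_pair (by norm_num)] at h2
  rw [hI3, Finset.sum_insert (by simp), Finset.sum_pair (by norm_num)] at h3
  rw [hI4, Finset.sum_insert (by simp), Finset.sum_insert (by simp), Finset.sum_pair (by norm_num)] at h4
  norm_num [h0] at h1 h2 h3 h4
  have hbig : ∀ m : ℕ, L (m + 5) = -(L (m + 4) * A 1 + L (m + 3) * A 2 + L (m + 2) * A 3 + L (m + 1) * A 4) := by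
    intro m
    have h := hrec (m + 5)
    rw [h5 (m + 5) (by omega), mul_zero] at h
    have hsub : ∑ j ∈ Icc (m + 1) (m + 5), L j * A (m + 5 - j) = ∑ j ∈ Icc 1 (m + 5), L j * A (m + 5 - j) := by
      apply Finset.sum_subset
      · apply Finset.Icc_subset_Icc_left
        omega
      · intro j hj hj'
        rw [Finset.mem_Icc] at hj hj'
        rw [h5 _ (by omega), mul_zero]
    rw [← hsub, Finset.sum_Icc_succ_top (by omega), Finset.sum_Icc_succ_top (by omega),
      Finset.sum_Icc_succ_top (by omega), Finset.sum_Icc_succ_top (by omega), Finset.Icc_self,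
      Finset.sum_singleton] at h
    have e1 : m + 5 - (m + 1) = 4 := by omega
    have e2 : m + 5 - (m + 1 + 1) = 3 := by omega
    have e3 : m + 5 - (m + 2 + 1) = 2 := by omega
    have e4 : m + 5 - (m + 3 + 1) = 1 := by omega
    have e5 : m + 5 - (m + 4 + 1) = 0 := by omega
    simp only [e1, e2, e3, e4, e5, h0, mul_one] at h
    have g2 : m + 1 + 1 = m + 2 := rfl
    have g3 : m + 2 + 1 = m + 3 := rfl
    have g4 : m + 3 + 1 = m + 4 := rfl
    have g5 : m + 4 + 1 = m + 5 := rfl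
    rw [g2, g3, g4, g5] at h
    linarith
  have h1' : (L 1 : ℂ) = A 1 := by exact_mod_cast h1.symm
  have h2' : (2 : ℂ) * A 2 = L 1 * A 1 + L 2 := by exact_mod_cast h2
  have h3' : (3 : ℂ) * A 3 = L 1 * A 2 + (L 2 * A 1 + L 3) := by exact_mod_cast h3
  have h4' : (4 : ℂ) * A 4 = L 1 * A 3 + (L 2 * A 2 + (L 3 * A 1 + L 4)) := by exact_mod_cast h4
  have hbig' : ∀ m : ℕ, (L (m + 5) : ℂ) =
      -(L (m + 4) * A 1 + L (m + 3) * A 2 + L (m + 2) * A 3 + L (m + 1) * A 4) := by
    intro m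
    exact_mod_cast hbig m
  have key : ∀ n : ℕ, ∀ j, j ≤ n → 0 < j → (L j : ℂ) = -(a ^ j + b ^ j + c ^ j + d ^ j) := by
    intro n
    induction n with
    | zero => intro j hj hj0; omega
    | succ n ih =>
      intro j hj hj0
      rcases Nat.lt_or_ge j (n + 1) with hlt | hge
      · exact ih j (by omega) hj0
      · have hjn : j = n + 1 := by omega
        subst hjn
        have L1 : (L 1 : ℂ) = -(a + b + c + d) := by rw [h1', hx]
        have L2 : (L 2 : ℂ) = -(a ^ 2 + b ^ 2 + c ^ 2 + d ^ 2) := by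
          have : (L 2 : ℂ) = 2 * A 2 - L 1 * A 1 := by rw [h2']; ring
          rw [this, L1, hx, hy]; ring
        have L3 : (L 3 : ℂ) = -(a ^ 3 + b ^ 3 + c ^ 3 + d ^ 3) := by
          have : (L 3 : ℂ) = 3 * A 3 - L 1 * A 2 - L 2 * A 1 := by rw [h3']; ring
          rw [this, L1, L2, hx, hy, hz]; ring
        rcases Nat.lt_or_ge n 4 with hn | hn
        · interval_cases n
          · simpa using L1
          · exact L2
          · exact L3
          · have : (L 4 : ℂ) = 4 * A 4 - L 1 * A 3 - L 2 * A 2 - L 3 * A 1 := by rw [h4']; ring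
            show (L 4 : ℂ) = -(a ^ 4 + b ^ 4 + c ^ 4 + d ^ 4)
            rw [this, L1, L2, L3, hx, hy, hz, hw]; ring
        · obtain ⟨m, rfl⟩ : ∃ m, n = m + 4 := ⟨n - 4, by omega⟩
          show (L (m + 5) : ℂ) = -(a ^ (m + 5) + b ^ (m + 5) + c ^ (m + 5) + d ^ (m + 5))
          rw [hbig' m, ih (m + 4) (by omega) (by omega), ih (m + 3) (by omega) (by omega),
            ih (m + 2) (by omega) (by omega), ih (m + 1) (by omega) (by omega), hx, hy, hz, hw]
          ring
  intro j hj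
  rw [key j j le_rfl hj]
  simp [Fin.sum_univ_four]

end MPadc574G
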