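import Mathlib

/-!
# JOB Root: bounds for power sums bound the numbers

Take the polynomial `p` with the roots `β j ≠ β i`. Then `∑_j β j ^ k p (β j) = m (β i) ^ k p (β i)` is a
combination of power sums, so `‖β i‖ ^ k = O(ρ ^ k)`.
-/

set_option autoImplicit false

namespace MPadc574G

open Finset

theorem root_bound {m : ℕ} (β : Fin m → ℂ) {C ρ : ℝ} (hρ : 0 < ρ) (k₀ : ℕ)
    (h : ∀ k, k₀ ≤ k → ‖∑ i, β i ^ k‖ ≤ C * ρ ^ k) (i : Fin m) : ‖β i‖ ≤ ρ := by
  classical
  set p : Polynomial ℂ := ∏ c ∈ (univ.image β).erase (β i), (Polynomial.X - Polynomial.C c)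
    with hp
  have hp0 : ∀ j, β j ≠ β i → p.eval (β j) = 0 := by
    intro j hj
    rw [hp, Polynomial.eval_prod]
    refine Finset.prod_eq_zero (i := β j) ?_ (by simp)
    exact Finset.mem_erase.2 ⟨hj, Finset.mem_image_of_mem _ (Finset.mem_univ _)⟩
  have hpi : p.eval (β i) ≠ 0 := by
    rw [hp, Polynomial.eval_prod]
    refine Finset.prod_ne_zero_iff.2 fun c hc => ?_
    rw [Polynomial.eval_sub, Polynomial.eval_X, Polynomial.eval_C]
    exact sub_ne_zero.2 (Finset.ne_of_mem_erase hc).symm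
  -- the sum
  set M : ℕ := (univ.filter (fun j => β j = β i)).card with hM
  have hM1 : 1 ≤ M := Finset.card_pos.2 ⟨i, by simp⟩
  have hsum1 : ∀ k, ∑ j, β j ^ k * p.eval (β j) = M * (β i ^ k * p.eval (β i)) := by
    intro k
    rw [← Finset.sum_filter_add_sum_filter_not univ (fun j => β j = β i)]
    have e1 : ∑ j ∈ univ.filter (fun j => β j = β i), β j ^ k * p.eval (β j)
        = ∑ j ∈ univ.filter (fun j => β j = β i), β i ^ k * p.eval (β i) := by
      refine Finset.sum_congr rfl fun j hj => ?_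
      rw [(Finset.mem_filter.1 hj).2]
    have e2 : ∑ j ∈ univ.filter (fun j => ¬ β j = β i), β j ^ k * p.eval (β j) = 0 := by
      refine Finset.sum_eq_zero fun j hj => ?_
      rw [hp0 j (Finset.mem_filter.1 hj).2, mul_zero]
    rw [e1, e2, Finset.sum_const, add_zero, nsmul_eq_mul]
  have hsum2 : ∀ k, ∑ j, β j ^ k * p.eval (β j)
      = ∑ a ∈ range (p.natDegree + 1), p.coeff a * ∑ j, β j ^ (k + a) := by
    intro k
    simp only [Polynomial.eval_eq_sum_range, Finset.mul_sum]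
    rw [Finset.sum_comm]
    refine Finset.sum_congr rfl fun a _ => Finset.sum_congr rfl fun j _ => ?_
    rw [pow_add]
    ring
  set D : ℝ := ∑ a ∈ range (p.natDegree + 1), ‖p.coeff a‖ * (C * ρ ^ a) with hD
  have hbound : ∀ k, k₀ ≤ k → ‖β i‖ ^ k * ‖p.eval (β i)‖ ≤ D * ρ ^ k := by
    intro k hk
    have h1 : ‖∑ j, β j ^ k * p.eval (β j)‖ ≤ D * ρ ^ k := by
      rw [hsum2]
      refine (norm_sum_le _ _).trans ?_
      rw [hD, Finset.sum_mul]
      refine Finset.sum_le_sum fun a _ => ?_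
      rw [norm_mul, mul_assoc]
      refine mul_le_mul_of_nonneg_left ?_ (norm_nonneg _)
      refine (h (k + a) (by omega)).trans (le_of_eq ?_)
      rw [pow_add]
      ring
    rw [hsum1, norm_mul, norm_mul, norm_pow, Complex.norm_natCast] at h1
    have h2 : (1 : ℝ) ≤ M := by exact_mod_cast hM1
    have h3 : 0 ≤ ‖β i‖ ^ k * ‖p.eval (β i)‖ := by positivity
    nlinarith
  by_contra hcon
  rw [not_le] at hcon
  have hr : 1 < ‖β i‖ / ρ := (one_lt_div hρ).2 hcon
  have hpos : 0 < ‖p.eval (β i)‖ := norm_pos_iff.2 hpi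
  obtain ⟨n, hn⟩ := ((tendsto_pow_atTop_atTop_of_one_lt hr).eventually_gt_atTop
    (D / ‖p.eval (β i)‖)).and (Filter.eventually_ge_atTop k₀) |>.exists
  have h1 := hbound n hn.2
  have h2 := hn.1
  rw [div_pow, div_lt_div_iff₀ hpos (pow_pos hρ n)] at h2
  linarith

end MPadc574G
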