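import Pool.Agent.Lib.MP_adc574_ag_G2.Bombieri
import Pool.Agent.Lib.MP_adc574_ag_G2.RatA
import Pool.Agent.Lib.MP_adc574_ag_G2.RatB
import Pool.Agent.Lib.MP_adc574_ag_G2.RatC
import Pool.Agent.Lib.MP_adc574_ag_G2.RatD
import Pool.Agent.Lib.MP_adc574_ag_G2.Root

/-!
# The Riemann hypothesis for the character sums of quintic polynomials with rational roots
-/

set_option autoImplicit false

namespace MPadc574G

open Polynomial Finset

theorem weil {p : ℕ} [Fact p.Prime] (hp4 : p % 4 = 1) (S : Finset (ZMod p)) (hS : S.card = 5) :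
    ∃ α : Fin 4 → ℂ, (∀ i, ‖α i‖ ^ 2 ≤ p) ∧
      ∀ (j : ℕ), 0 < j → ∀ (F : Type) [Field F] [Fintype F] [DecidableEq F] [Algebra (ZMod p) F],
        Fintype.card F = p ^ j →
          (cs F ((fp S).map (algebraMap (ZMod p) F)) : ℂ) = -∑ i, α i ^ j := by
  have hp2 : p ≠ 2 := by
    rintro rfl
    norm_num at hp4
  have hchar : ringChar (ZMod p) ≠ 2 := by
    rw [ZMod.ringChar_zmod_n]
    exact hp2
  have hm : IsSquare (-1 : ZMod p) := by
    rw [ZMod.exists_sq_eq_neg_one_iff]
    omega
  have hSne : S.Nonempty := by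
    rw [← Finset.card_pos]
    omega
  obtain ⟨α, hα⟩ := newton (As S) (Lam S) (As_zero S)
    (fun n hn => As_eq_zero hchar S hSne (by omega)) (recursion S)
  have key : ∀ (j : ℕ), 0 < j → ∀ (F : Type) [Field F] [Fintype F] [DecidableEq F]
      [Algebra (ZMod p) F], Fintype.card F = p ^ j →
      (cs F ((fp S).map (algebraMap (ZMod p) F)) : ℂ) = -∑ i, α i ^ j := by
    intro j hj F _ _ _ _ hF
    rw [cs_eq_Lam hchar hm hj (by rw [hF, ZMod.card]) S, hα j hj]
  refine ⟨α, ?_, key⟩
  intro i
  have hp0 : 0 < p := (Fact.out : p.Prime).pos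
  have hbound : ∀ k, 11 ≤ k → ‖∑ i, (α i ^ 2) ^ k‖ ≤ 5 * (p : ℝ) ^ k := by
    intro k hk
    classical
    let F := GaloisField p (k * 2)
    have hFin : Finite F := inferInstance
    let _ : Fintype F := Fintype.ofFinite F
    have hcard : Fintype.card F = p ^ (k * 2) := by
      rw [← Nat.card_eq_fintype_card]
      exact GaloisField.card p (k * 2) (by omega)
    have h1 := key (k * 2) (by omega) F hcard
    have hk11 : 11 ≤ p ^ k := by
      calc 11 ≤ k := hk
        _ ≤ p ^ k := (Nat.lt_pow_self (Fact.out : p.Prime).one_lt).le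
    have hchF : CharP F p := inferInstance
    have h2 := bombieri (F := F) (p := p) (k := k) hp2 (by rw [hcard, pow_mul]) hk11
      ((fp S).map (algebraMap (ZMod p) F)) (by
        rw [natDegree_map, natDegree_fp, hS])
    have h3 : ∑ i, (α i ^ 2) ^ k = -(cs F ((fp S).map (algebraMap (ZMod p) F)) : ℂ) := by
      rw [h1, neg_neg]
      apply Finset.sum_congr rfl
      intro i _
      rw [← pow_mul, mul_comm]
    rw [h3, norm_neg, Complex.norm_intCast]
    exact_mod_cast h2
  have h := root_bound (fun i => α i ^ 2) (C := 5) (ρ := p) (by exact_mod_cast hp0) 11 hbound i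
  rw [← norm_pow]
  exact h

end MPadc574G
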